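import Pool.Agent.Work.MP_433a35_co.GB.FC.KCh6

set_option maxRecDepth 100000
set_option linter.unusedVariables false

namespace MP433Sys.FC

theorem mg6_6 : mergeOK cfg6 (col 6 chs6.flatten) = true := by decide +kernel

theorem mg6_7 : mergeOK cfg6 (col 7 chs6.flatten) = true := by decide +kernel

theorem mg6_8 : mergeOK cfg6 (col 8 chs6.flatten) = true := by decide +kernel

end MP433Sys.FC
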