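import Pool.Agent.Work.MP_433a35_co.GB.FC.KM6_0
import Pool.Agent.Work.MP_433a35_co.GB.FC.KM6_1
import Pool.Agent.Work.MP_433a35_co.GB.FC.KM6_2
import Pool.Agent.Work.MP_433a35_co.GB.FC.KM6_3

set_option maxRecDepth 100000
set_option linter.unusedVariables false

namespace MP433Sys.FC

theorem mgall6 : ∀ i < 11, mergeOK cfg6 (col i chs6.flatten) = true :=
  kall_succ (kall_succ (kall_succ (kall_succ (kall_succ (kall_succ (kall_succ (kall_succ (kall_succ (kall_succ (kall_succ (kall_zero _) mg6_0) mg6_1) mg6_2) mg6_3) mg6_4) mg6_5) mg6_6) mg6_7) mg6_8) mg6_9) mg6_10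

def names6 : List (List Src) := [pT6,
 p6_0_0,
 p6_1_0,
 p6_1_1,
 p6_2_0,
 p6_3_0,
 p6_3_1,
 p6_3_2,
 p6_3_3,
 p6_3_4,
 p6_3_5,
 p6_3_6,
 p6_3_7,
 p6_3_8,
 p6_3_9,
 p6_3_10,
 p6_3_11,
 p6_3_12,
 p6_3_13,
 p6_3_14,
 p6_3_15,
 p6_3_16,
 p6_3_17,
 p6_3_18,
 p6_3_19,
 p6_3_20,
 p6_3_21,
 p6_3_22,
 p6_3_23,
 p6_3_24,
 p6_3_25,
 p6_3_26,
 p6_3_27,
 p6_3_28,
 p6_3_29,
 p6_3_30,
 p6_3_31,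
 p6_3_32,
 p6_3_33,
 p6_3_34,
 p6_3_35,
 p6_3_36,
 p6_3_37,
 p6_3_38,
 p6_3_39,
 p6_3_40,
 p6_3_41,
 p6_3_42,
 p6_3_43,
 p6_3_44,
 p6_4_0,
 p6_5_0,
 p6_6_0,
 p6_7_0,
 p6_8_0,
 p6_9_0,
 p6_10_0,
 p6_11_0,
 p6_12_0,
 p6_13_0,
 p6_14_0,
 p6_15_0,
 p6_16_0,
 p6_16_1,
 p6_16_2,
 p6_17_0,
 p6_18_0,
 p6_19_0,
 p6_20_0,
 p6_20_1,
 p6_20_2,
 p6_20_3,
 p6_21_0,
 p6_21_1,
 p6_21_2,
 p6_21_3,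
 p6_21_4,
 p6_22_0,
 p6_23_0,
 p6_24_0,
 p6_24_1,
 p6_25_0,
 p6_25_1,
 p6_25_2,
 p6_26_0,
 p6_26_1,
 p6_26_2,
 p6_26_3,
 p6_27_0,
 p6_28_0,
 p6_28_1,
 p6_29_0,
 p6_29_1,
 p6_29_2,
 p6_30_0,
 p6_31_0,
 p6_31_1,
 p6_32_0,
 p6_33_0,
 p6_34_0,
 p6_34_1,
 p6_34_2,
 p6_35_0,
 p6_35_1,
 p6_35_2,
 p6_35_3,
 pR6_0,
 pR6_1,
 pR6_2_0,
 pR6_2_1,
 pR6_2_2,
 pR6_2_3,
 pR6_2_4,
 pR6_2_5,
 pR6_2_6,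
 pR6_2_7,
 pR6_2_8,
 pR6_2_9,
 pR6_2_10,
 pR6_2_11,
 pR6_2_12,
 pR6_2_13,
 pR6_2_14,
 pR6_2_15,
 pR6_2_16,
 pR6_2_17,
 pR6_2_18,
 pR6_2_19,
 pR6_2_20,
 pR6_2_21,
 pR6_2_22,
 pR6_2_23,
 pR6_2_24,
 pR6_2_25,
 pR6_2_26,
 pR6_2_27,
 pR6_2_28]

theorem lev6 {V : Type*} [Fintype V] (T : Sys hS V) (hT : Hyp T cfg6) :
    -(if 6 < 4 then (0 : ℝ) else 132786823389677775609684) * T.bad * T.D ^ (6 - 4) ≤ srcVal T 6 names6.flatten :=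
  lev_of T cfg6_ok hT chs6.flatten (good6 T hT) 11 len6 mgall6 names6 132786823389677775609684 (by decide +kernel) rfl

end MP433Sys.FC
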