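import Pool.Agent.Work.MP_433a35_co.GB.FC.P
import Pool.Agent.Work.MP_433a35_co.GB.FC.Psd5
import Pool.Agent.Work.MP_433a35_co.GB.FC.Psd2
import Pool.Agent.Work.MP_433a35_co.GB.FC.Psd3
import Pool.Agent.Work.MP_433a35_co.GB.FC.Psd1
import Pool.Agent.Work.MP_433a35_co.GB.FC.Psd0
import Pool.Agent.Work.MP_433a35_co.GB.FC.Psd4
import Pool.Agent.Work.MP_433a35_co.GB.FC.K4
import Pool.Agent.Work.MP_433a35_co.GB.FC.K5
import Pool.Agent.Work.MP_433a35_co.GB.FC.KL6
import Pool.Agent.Work.MP_433a35_co.GB.Sys.Hyp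

/-!
# Assembly of the certificate, `κ' = 1/2`

`main_ineq6`: the inequality for hybrid systems, from the level inequalities `lev2`, ..., `lev6`.
`strong`: the bound for the strong chromatic index.
-/

set_option linter.style.longLine false

namespace MP433Sys.FC

open Finset

/-- the target, `κ' = 1/2` -/
def Tg : ℕ → List Src :=
  tgtG hS 3 4 (nat_lit 2305843009213693952) (nat_lit 4611686018427387904)

/-- the blocks with the lengths of their parts -/
def bsK : ℕ → List (BlkT × List ℕ)
  | 2 => bs2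
  | 3 => bs3
  | 4 => bs4
  | 5 => bs5
  | 6 => bs6
  | _ => blks.map fun b => (b, [])

/-- the rows, cut into lists -/
def rsK : ℕ → List (List RowD)
  | 2 => rs2
  | 3 => rs3
  | 4 => rs4
  | 5 => rs5
  | 6 => rs6
  | _ => [rows]

/-- the bounds for the bad terms -/
def cK : ℕ → ℝ
  | 4 => 3063784152819466055712
  | 5 => 17238191359627819014660
  | 6 => 132786823389677775609684
  | _ => 0

theorem blks_good : ∀ b ∈ blks, b.good hS 6 := by
  simp only [blks, List.forall_mem_cons]
  exact ⟨b0_good, b1_good, b2_good, b3_good, b4_good, b5_good, b6_good, b7_good, b8_good, b9_good, b10_good, b11_good, b12_good, b13_good, b14_good, b15_good, b16_good, b17_good, b18_good, b19_good, b20_good, b21_good, b22_good, b23_good, b24_good, b25_good, b26_good, b27_good, b28_good, b29_good, b30_good, b31_good, b32_good, b33_good, b34_good, b35_good, fun _ h => absurd h List.not_mem_nil⟩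

theorem rows_ok : (rows.all fun x => x.ok false 6) = true := by
  rw [rows, List.all_append, List.all_append, a0_ok, a1_ok, a2_ok]
  rfl

theorem bsK_fst : ∀ k ≤ 6, (bsK k).map Prod.fst = blks := by
  intro k hk
  have h0 : (blks.map fun b => ((b, []) : BlkT × List ℕ)).map Prod.fst = blks := rfl
  match k, hk with
  | 0, _ => exact h0
  | 1, _ => exact h0
  | 2, _ => rfl
  | 3, _ => rfl
  | 4, _ => rfl
  | 5, _ => rfl
  | 6, _ => rfl

theorem rsK_flat : ∀ k ≤ 6, (rsK k).flatten = rows := by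
  intro k hk
  have h0 : [rows].flatten = rows := by
    rw [List.flatten_cons, List.flatten_nil, List.append_nil]
  match k, hk with
  | 0, _ => exact h0
  | 1, _ => exact h0
  | 2, _ => exact rs2_eq
  | 3, _ => exact rs3_eq
  | 4, _ => exact rs4_eq
  | 5, _ => exact rs5_eq
  | 6, _ => exact rs6_eq

theorem empty0 : (partsT hS Tg 0 (bsK 0) (rsK 0)).flatten.isEmpty = true := by
  decide +kernel

theorem empty1 : (partsT hS Tg 1 (bsK 1) (rsK 1)).flatten.isEmpty = true := by
  decide +kernel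

section

variable {V : Type*} [Fintype V] (T : Sys hS V)

theorem hc0 (k : ℕ) (hk : k < 4) : cK k = 0 := by
  match k, hk with
  | 0, _ => rfl
  | 1, _ => rfl
  | 2, _ => rfl
  | 3, _ => rfl

theorem lv0 (k : ℕ) (h : (partsT hS Tg k (bsK k) (rsK k)).flatten.isEmpty = true)
    (hk : cK k = 0) : -(cK k) * T.bad * T.D ^ (k - 4) ≤
      srcVal T k (partsT hS Tg k (bsK k) (rsK k)).flatten := by
  rw [List.isEmpty_iff.1 h, hk, srcVal_nil]
  simp

theorem lv_all (h2 : Hyp T cfg2) (h3 : Hyp T cfg3) (h4 : Hyp T cfg4) (h5 : Hyp T cfg5)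
    (h6 : Hyp T cfg6) : ∀ k ≤ 6, -(cK k) * T.bad * T.D ^ (k - 4) ≤
      srcVal T k (partsT hS Tg k (bsK k) (rsK k)).flatten := by
  intro k hk
  match k, hk with
  | 0, _ => exact lv0 T 0 empty0 rfl
  | 1, _ => exact lv0 T 1 empty1 rfl
  | 2, _ =>
    have h := lev2 T h2
    rw [if_pos (by norm_num)] at h
    have e : partsT hS Tg 2 (bsK 2) (rsK 2) = names2 := parts2
    rw [e]
    exact h
  | 3, _ =>
    have h := lev3 T h3
    rw [if_pos (by norm_num)] at h
    have e : partsT hS Tg 3 (bsK 3) (rsK 3) = names3 := parts3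
    rw [e]
    exact h
  | 4, _ =>
    have h := lev4 T h4
    rw [if_neg (by norm_num)] at h
    have e : partsT hS Tg 4 (bsK 4) (rsK 4) = names4 := parts4
    rw [e]
    exact h
  | 5, _ =>
    have h := lev5 T h5
    rw [if_neg (by norm_num)] at h
    have e : partsT hS Tg 5 (bsK 5) (rsK 5) = names5 := parts5
    rw [e]
    exact h
  | 6, _ =>
    have h := lev6 T h6
    rw [if_neg (by norm_num)] at h
    have e : partsT hS Tg 6 (bsK 6) (rsK 6) = names6 := parts6
    rw [e]
    exact h

/-- **The inequality for hybrid systems**, `κ' = 1/2`. -/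
theorem main_ineq6 (hD : 0 ≤ T.D) :
    -(∑ k ∈ range 7, cK k) * T.bad * T.D ^ (6 - 4) ≤ lvl T 6 Tg := by
  refine main_partsT T false (fun h => absurd h Bool.false_ne_true) 6 (by norm_num) hD
    (by decide) Tg blks rows blks_good rows_ok bsK bsK_fst rsK rsK_flat cK hc0 ?_
  exact lv_all T (hyp_full T cfg2 hD rfl rfl)
    (hyp_full T cfg3 hD rfl rfl)
    (hyp_full T cfg4 hD rfl rfl)
    (hyp_full T cfg5 hD rfl rfl)
    (hyp_full T cfg6 hD rfl rfl)

end

theorem two_half : (((nat_lit 2305843009213693952 : ℕ) : ℝ)) /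
    (((nat_lit 4611686018427387904 : ℕ) : ℝ)) = 1 / 2 := by
  have e : (nat_lit 4611686018427387904 : ℕ) = 2 * 2305843009213693952 := by decide +kernel
  have e' : (nat_lit 2305843009213693952 : ℕ) = 2305843009213693952 := by decide +kernel
  rw [e, e']
  push_cast
  norm_num

theorem strong (ε : ℝ) (hε : 0 < ε) :
    ∃ K : ℕ, ∀ (V : Type) [Fintype V] (G : SimpleGraph V) (D : ℕ), K ≤ D → 
      (∀ v, (G.neighborSet v).ncard ≤ D) →
      ∃ col : Sym2 V → ℕ,
        (∀ x y, G.Adj x y → (col s(x, y) : ℝ) < (5 / 4 + ε) * (D : ℝ) ^ 2) ∧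
        ∀ x y c e, G.Adj x y → G.Adj c e → s(x, y) ≠ s(c, e) → (y = c ∨ G.Adj y c) →
          col s(x, y) ≠ col s(c, e) := by
  have h := strong_of_hyb (nat_lit 2305843009213693952) (nat_lit 4611686018427387904)
    (by decide +kernel) (by decide +kernel) 6 (by norm_num) (∑ k ∈ range 7, cK k)
    (fun V _ T hD _ => main_ineq6 T hD) ε hε
  rw [two_half, show ((2 : ℝ) + 1 / 2) / 2 = 5 / 4 by norm_num] at h
  exact h

end MP433Sys.FC
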