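import Pool.Agent.Work.MP_433a35_co.GB.FC.KA6
import Pool.Agent.Work.MP_433a35_co.GB.FC.KA0
import Pool.Agent.Work.MP_433a35_co.GB.FC.KA1
import Pool.Agent.Work.MP_433a35_co.GB.FC.KA8
import Pool.Agent.Work.MP_433a35_co.GB.FC.KA5
import Pool.Agent.Work.MP_433a35_co.GB.FC.KA7
import Pool.Agent.Work.MP_433a35_co.GB.FC.KA2
import Pool.Agent.Work.MP_433a35_co.GB.FC.KA4
import Pool.Agent.Work.MP_433a35_co.GB.FC.KA3

set_option maxRecDepth 100000
set_option linter.unusedVariables false

namespace MP433Sys.FC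

def chs6 : List (List Chunk) := [ch6_0, ch6_1, ch6_2, ch6_3, ch6_4, ch6_5, ch6_6, ch6_7, ch6_8, ch6_9, ch6_10, ch6_11]

theorem good6 {V : Type*} [Fintype V] (T : Sys hS V) (hT : Hyp T cfg6) :
    ∀ x ∈ chs6.flatten, x.good T cfg6 :=
  kall_flat (good6_0 T hT) (kall_flat (good6_1 T hT) (kall_flat (good6_2 T hT) (kall_flat (good6_3 T hT) (kall_flat (good6_4 T hT) (kall_flat (good6_5 T hT) (kall_flat (good6_6 T hT) (kall_flat (good6_7 T hT) (kall_flat (good6_8 T hT) (kall_flat (good6_9 T hT) (kall_flat (good6_10 T hT) (kall_flat (good6_11 T hT) (kall_nil _))))))))))))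

theorem len6 : ∀ x ∈ chs6.flatten, x.R.length ≤ 11 :=
  kall_flat (klen_all len6_0) (kall_flat (klen_all len6_1) (kall_flat (klen_all len6_2) (kall_flat (klen_all len6_3) (kall_flat (klen_all len6_4) (kall_flat (klen_all len6_5) (kall_flat (klen_all len6_6) (kall_flat (klen_all len6_7) (kall_flat (klen_all len6_8) (kall_flat (klen_all len6_9) (kall_flat (klen_all len6_10) (kall_flat (klen_all len6_11) (kall_nil _))))))))))))

end MP433Sys.FC
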