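import Pool.Agent.Work.MP_433a35_co.GB.Sys.AsmT
import Pool.Agent.Work.MP_433a35_co.GB.Sys.Hyb

/-! generated data: degree rows 0 -/

set_option linter.style.longLine false

namespace MP433Sys.FC

def r0_0 : List RowD := [⟨nat_lit 3, Int.ofNat (nat_lit 1458738041939350016), nat_lit 76, nat_lit 0⟩,
  ⟨nat_lit 3, Int.ofNat (nat_lit 2789602918547564032), nat_lit 84, nat_lit 0⟩,
  ⟨nat_lit 3, Int.ofNat (nat_lit 241936281817059456), nat_lit 84, nat_lit 1⟩,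
  ⟨nat_lit 3, Int.ofNat (nat_lit 17511854237348), nat_lit 27, nat_lit 0⟩,
  ⟨nat_lit 3, Int.ofNat (nat_lit 2647969550407927296), nat_lit 91, nat_lit 0⟩,
  ⟨nat_lit 3, Int.ofNat (nat_lit 6155630594750943232), nat_lit 91, nat_lit 1⟩,
  ⟨nat_lit 3, Int.ofNat (nat_lit 572878131660022784), nat_lit 155, nat_lit 0⟩,
  ⟨nat_lit 3, Int.ofNat (nat_lit 6149977740338648064), nat_lit 155, nat_lit 1⟩]

def a0 : List (List RowD) := [r0_0]

theorem a0_ok : (a0.flatten.all fun x => x.ok false 6) = true := by decide +kernel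

def pR2_0 : List Src := rowsSrc hS 2 a0.flatten

def m2_0 : List (List Src) := [pR2_0]

theorem m2_0_eq : [a0.flatten].map (rowsSrc hS 2) = m2_0 := rfl

def pR3_0 : List Src := rowsSrc hS 3 a0.flatten

def m3_0 : List (List Src) := [pR3_0]

theorem m3_0_eq : [a0.flatten].map (rowsSrc hS 3) = m3_0 := rfl

def pR4_0_0 : List Src := rowsSrc hS 4 r0_0

def m4_0 : List (List Src) := [pR4_0_0]

theorem m4_0_eq : a0.map (rowsSrc hS 4) = m4_0 := rfl

def pR5_0 : List Src := rowsSrc hS 5 a0.flatten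

def m5_0 : List (List Src) := [pR5_0]

theorem m5_0_eq : [a0.flatten].map (rowsSrc hS 5) = m5_0 := rfl

def pR6_0 : List Src := rowsSrc hS 6 a0.flatten

def m6_0 : List (List Src) := [pR6_0]

theorem m6_0_eq : [a0.flatten].map (rowsSrc hS 6) = m6_0 := rfl

end MP433Sys.FC

/-! generated data: degree rows 1 -/

set_option linter.style.longLine false

namespace MP433Sys.FC

def r1_0 : List RowD := [⟨nat_lit 4, Int.ofNat (nat_lit 13278655545260), nat_lit 524, nat_lit 0⟩,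
  ⟨nat_lit 4, Int.ofNat (nat_lit 863992363926095232), nat_lit 532, nat_lit 0⟩,
  ⟨nat_lit 4, Int.ofNat (nat_lit 20484450208107256), nat_lit 644, nat_lit 1⟩,
  ⟨nat_lit 4, Int.ofNat (nat_lit 1316073844362737712), nat_lit 1044, nat_lit 0⟩,
  ⟨nat_lit 4, Int.ofNat (nat_lit 4445113476298004), nat_lit 4684, nat_lit 0⟩,
  ⟨nat_lit 4, Int.ofNat (nat_lit 523728237502720768), nat_lit 9364, nat_lit 0⟩,
  ⟨nat_lit 4, Int.ofNat (nat_lit 632452098054095616), nat_lit 32788, nat_lit 0⟩,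
  ⟨nat_lit 4, Int.ofNat (nat_lit 23826810124737300), nat_lit 33292, nat_lit 0⟩,
  ⟨nat_lit 4, Int.ofNat (nat_lit 947456247558374272), nat_lit 33292, nat_lit 1⟩,
  ⟨nat_lit 4, Int.ofNat (nat_lit 1335764385095714560), nat_lit 33292, nat_lit 2⟩,
  ⟨nat_lit 4, Int.ofNat (nat_lit 1041269055478681472), nat_lit 33300, nat_lit 2⟩,
  ⟨nat_lit 4, Int.ofNat (nat_lit 1908085923688804352), nat_lit 33300, nat_lit 3⟩,
  ⟨nat_lit 4, Int.ofNat (nat_lit 1476763331777459456), nat_lit 33348, nat_lit 2⟩,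
  ⟨nat_lit 4, Int.ofNat (nat_lit 784685533714062976), nat_lit 33412, nat_lit 1⟩,
  ⟨nat_lit 4, Int.ofNat (nat_lit 917075396089584896), nat_lit 33812, nat_lit 1⟩,
  ⟨nat_lit 4, Int.ofNat (nat_lit 2031662777144804352), nat_lit 33812, nat_lit 2⟩,
  ⟨nat_lit 4, Int.ofNat (nat_lit 205941793929941856), nat_lit 37452, nat_lit 0⟩,
  ⟨nat_lit 4, Int.ofNat (nat_lit 311984037192443648), nat_lit 37452, nat_lit 2⟩,
  ⟨nat_lit 4, Int.ofNat (nat_lit 634351204523218304), nat_lit 37972, nat_lit 0⟩,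
  ⟨nat_lit 4, Int.ofNat (nat_lit 498609603590713472), nat_lit 37972, nat_lit 1⟩,
  ⟨nat_lit 4, Int.ofNat (nat_lit 304684262557486208), nat_lit 37972, nat_lit 2⟩,
  ⟨nat_lit 4, Int.ofNat (nat_lit 461146963211661312), nat_lit 42132, nat_lit 0⟩,
  ⟨nat_lit 4, Int.ofNat (nat_lit 916508805591776), nat_lit 65548, nat_lit 0⟩,
  ⟨nat_lit 4, Int.ofNat (nat_lit 2017018156533250048), nat_lit 66060, nat_lit 0⟩,
  ⟨nat_lit 4, Int.ofNat (nat_lit 3061747638304082432), nat_lit 66060, nat_lit 2⟩,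
  ⟨nat_lit 4, Int.ofNat (nat_lit 227363698653793952), nat_lit 66068, nat_lit 2⟩,
  ⟨nat_lit 4, Int.ofNat (nat_lit 1862533352941983488), nat_lit 66068, nat_lit 3⟩,
  ⟨nat_lit 4, Int.ofNat (nat_lit 44187781165362928), nat_lit 66116, nat_lit 2⟩,
  ⟨nat_lit 4, Int.ofNat (nat_lit 499221053133436416), nat_lit 66580, nat_lit 2⟩,
  ⟨nat_lit 4, Int.ofNat (nat_lit 38299286833198800), nat_lit 66700, nat_lit 1⟩,
  ⟨nat_lit 4, Int.ofNat (nat_lit 1299902371418678528), nat_lit 66700, nat_lit 3⟩,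
  ⟨nat_lit 4, Int.ofNat (nat_lit 73689642730732672), nat_lit 66708, nat_lit 0⟩,
  ⟨nat_lit 4, Int.ofNat (nat_lit 498094278365830592), nat_lit 66708, nat_lit 2⟩,
  ⟨nat_lit 4, Int.ofNat (nat_lit 278309774922328928), nat_lit 66708, nat_lit 3⟩,
  ⟨nat_lit 4, Int.ofNat (nat_lit 170769913327291328), nat_lit 70220, nat_lit 0⟩,
  ⟨nat_lit 4, Int.ofNat (nat_lit 301160950881157888), nat_lit 70740, nat_lit 0⟩,
  ⟨nat_lit 4, Int.ofNat (nat_lit 284985753818342208), nat_lit 70740, nat_lit 1⟩,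
  ⟨nat_lit 4, Int.ofNat (nat_lit 333423277187875328), nat_lit 70740, nat_lit 2⟩,
  ⟨nat_lit 4, Int.ofNat (nat_lit 1265717477472821760), nat_lit 74900, nat_lit 0⟩,
  ⟨nat_lit 4, Int.ofNat (nat_lit 393274563396055040), nat_lit 74900, nat_lit 2⟩,
  ⟨nat_lit 4, Int.ofNat (nat_lit 2174311684292803584), nat_lit 539, nat_lit 0⟩,
  ⟨nat_lit 4, Int.ofNat (nat_lit 2163456057592624128), nat_lit 603, nat_lit 0⟩,
  ⟨nat_lit 4, Int.ofNat (nat_lit 928828904722237824), nat_lit 603, nat_lit 1⟩,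
  ⟨nat_lit 4, Int.ofNat (nat_lit 1545749891525563392), nat_lit 603, nat_lit 3⟩,
  ⟨nat_lit 4, Int.ofNat (nat_lit 929595466598617856), nat_lit 667, nat_lit 0⟩,
  ⟨nat_lit 4, Int.ofNat (nat_lit 1808617668010664704), nat_lit 667, nat_lit 1⟩]

def r1_1 : List RowD := [⟨nat_lit 4, Int.ofNat (nat_lit 389051630843282688), nat_lit 667, nat_lit 3⟩,
  ⟨nat_lit 4, Int.ofNat (nat_lit 1123217747547089652), nat_lit 1051, nat_lit 0⟩,
  ⟨nat_lit 4, Int.ofNat (nat_lit 1831590236520077312), nat_lit 1115, nat_lit 0⟩,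
  ⟨nat_lit 4, Int.ofNat (nat_lit 1155697483142475264), nat_lit 1115, nat_lit 3⟩,
  ⟨nat_lit 4, Int.ofNat (nat_lit 1415829956178340608), nat_lit 1179, nat_lit 0⟩,
  ⟨nat_lit 4, Int.ofNat (nat_lit 907918423537164160), nat_lit 1179, nat_lit 3⟩,
  ⟨nat_lit 4, Int.ofNat (nat_lit 1472033391087193856), nat_lit 4123, nat_lit 0⟩,
  ⟨nat_lit 4, Int.ofNat (nat_lit 52306097272006112), nat_lit 4187, nat_lit 1⟩,
  ⟨nat_lit 4, Int.ofNat (nat_lit 1563020633678699264), nat_lit 4187, nat_lit 2⟩,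
  ⟨nat_lit 4, Int.ofNat (nat_lit 204233326831672832), nat_lit 4251, nat_lit 1⟩,
  ⟨nat_lit 4, Int.ofNat (nat_lit 1078603474621062784), nat_lit 4251, nat_lit 2⟩,
  ⟨nat_lit 4, Int.ofNat (nat_lit 473703990678995968), nat_lit 4635, nat_lit 1⟩,
  ⟨nat_lit 4, Int.ofNat (nat_lit 2696886883786395648), nat_lit 4635, nat_lit 3⟩,
  ⟨nat_lit 4, Int.ofNat (nat_lit 546446971131584256), nat_lit 4699, nat_lit 0⟩,
  ⟨nat_lit 4, Int.ofNat (nat_lit 1365542596823687680), nat_lit 4699, nat_lit 1⟩,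
  ⟨nat_lit 4, Int.ofNat (nat_lit 517854424524696384), nat_lit 4699, nat_lit 2⟩,
  ⟨nat_lit 4, Int.ofNat (nat_lit 1312160951871138048), nat_lit 4763, nat_lit 1⟩,
  ⟨nat_lit 4, Int.ofNat (nat_lit 1183556618928731136), nat_lit 4763, nat_lit 3⟩,
  ⟨nat_lit 4, Int.ofNat (nat_lit 1200109314239883008), nat_lit 5147, nat_lit 0⟩,
  ⟨nat_lit 4, Int.ofNat (nat_lit 1496508116629628928), nat_lit 5147, nat_lit 2⟩,
  ⟨nat_lit 4, Int.ofNat (nat_lit 25944266330111672), nat_lit 5211, nat_lit 0⟩,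
  ⟨nat_lit 4, Int.ofNat (nat_lit 1517291650322566912), nat_lit 5211, nat_lit 2⟩,
  ⟨nat_lit 4, Int.ofNat (nat_lit 442393608437621312), nat_lit 5211, nat_lit 3⟩,
  ⟨nat_lit 4, Int.ofNat (nat_lit 108047257524369920), nat_lit 5275, nat_lit 0⟩,
  ⟨nat_lit 4, Int.ofNat (nat_lit 1769331824951209728), nat_lit 5275, nat_lit 2⟩,
  ⟨nat_lit 4, Int.ofNat (nat_lit 351564231392388672), nat_lit 5275, nat_lit 3⟩,
  ⟨nat_lit 4, Int.ofNat (nat_lit 273836040422513824), nat_lit 8283, nat_lit 1⟩,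
  ⟨nat_lit 4, Int.ofNat (nat_lit 1005001056216935680), nat_lit 8283, nat_lit 2⟩,
  ⟨nat_lit 4, Int.ofNat (nat_lit 693295724972615040), nat_lit 8347, nat_lit 1⟩,
  ⟨nat_lit 4, Int.ofNat (nat_lit 734064262114769792), nat_lit 8347, nat_lit 2⟩,
  ⟨nat_lit 4, Int.ofNat (nat_lit 816532789254437760), nat_lit 8731, nat_lit 1⟩,
  ⟨nat_lit 4, Int.ofNat (nat_lit 627102623225807232), nat_lit 8731, nat_lit 3⟩,
  ⟨nat_lit 4, Int.ofNat (nat_lit 1323680261471898112), nat_lit 8795, nat_lit 1⟩,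
  ⟨nat_lit 4, Int.ofNat (nat_lit 849782882795508736), nat_lit 8795, nat_lit 2⟩,
  ⟨nat_lit 4, Int.ofNat (nat_lit 762182020971584640), nat_lit 8795, nat_lit 3⟩,
  ⟨nat_lit 4, Int.ofNat (nat_lit 413497580569415040), nat_lit 8859, nat_lit 0⟩,
  ⟨nat_lit 4, Int.ofNat (nat_lit 880277900427689088), nat_lit 8859, nat_lit 1⟩,
  ⟨nat_lit 4, Int.ofNat (nat_lit 1196061341105258496), nat_lit 8859, nat_lit 3⟩,
  ⟨nat_lit 4, Int.ofNat (nat_lit 1273691372638776576), nat_lit 9243, nat_lit 0⟩,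
  ⟨nat_lit 4, Int.ofNat (nat_lit 886265554126126208), nat_lit 9307, nat_lit 0⟩,
  ⟨nat_lit 4, Int.ofNat (nat_lit 1206985119945965824), nat_lit 9307, nat_lit 2⟩,
  ⟨nat_lit 4, Int.ofNat (nat_lit 1283717429267119104), nat_lit 9371, nat_lit 0⟩,
  ⟨nat_lit 4, Int.ofNat (nat_lit 843216724184315520), nat_lit 9371, nat_lit 2⟩,
  ⟨nat_lit 4, Int.ofNat (nat_lit 3473163813843290112), nat_lit 36891, nat_lit 0⟩,
  ⟨nat_lit 4, Int.ofNat (nat_lit 1596565749709408256), nat_lit 36891, nat_lit 3⟩,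
  ⟨nat_lit 4, Int.ofNat (nat_lit 2101428773393412096), nat_lit 36955, nat_lit 0⟩]

def r1_2 : List RowD := [⟨nat_lit 4, Int.ofNat (nat_lit 2701814879550262784), nat_lit 36955, nat_lit 3⟩,
  ⟨nat_lit 4, Int.ofNat (nat_lit 365189547038601088), nat_lit 37019, nat_lit 0⟩,
  ⟨nat_lit 4, Int.ofNat (nat_lit 1241669153427734272), nat_lit 37019, nat_lit 1⟩,
  ⟨nat_lit 4, Int.ofNat (nat_lit 2120485390133575936), nat_lit 37019, nat_lit 3⟩,
  ⟨nat_lit 4, Int.ofNat (nat_lit 32541224140769508), nat_lit 37403, nat_lit 1⟩,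
  ⟨nat_lit 4, Int.ofNat (nat_lit 457493072173618048), nat_lit 37403, nat_lit 3⟩,
  ⟨nat_lit 4, Int.ofNat (nat_lit 418187721148183680), nat_lit 37467, nat_lit 3⟩,
  ⟨nat_lit 4, Int.ofNat (nat_lit 421345431991233344), nat_lit 37531, nat_lit 3⟩,
  ⟨nat_lit 4, Int.ofNat (nat_lit 695935256793075200), nat_lit 37915, nat_lit 1⟩,
  ⟨nat_lit 4, Int.ofNat (nat_lit 428207696262313536), nat_lit 37915, nat_lit 3⟩,
  ⟨nat_lit 4, Int.ofNat (nat_lit 158983962406547072), nat_lit 37979, nat_lit 0⟩,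
  ⟨nat_lit 4, Int.ofNat (nat_lit 358440253190743552), nat_lit 37979, nat_lit 1⟩,
  ⟨nat_lit 4, Int.ofNat (nat_lit 488268988051293696), nat_lit 38043, nat_lit 0⟩,
  ⟨nat_lit 4, Int.ofNat (nat_lit 19973255978399024), nat_lit 38043, nat_lit 1⟩,
  ⟨nat_lit 4, Int.ofNat (nat_lit 9087851713407336), nat_lit 38043, nat_lit 3⟩,
  ⟨nat_lit 4, Int.ofNat (nat_lit 1562312017122894592), nat_lit 40987, nat_lit 0⟩,
  ⟨nat_lit 4, Int.ofNat (nat_lit 388307086590913344), nat_lit 40987, nat_lit 3⟩,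
  ⟨nat_lit 4, Int.ofNat (nat_lit 105810541334437360), nat_lit 41051, nat_lit 0⟩,
  ⟨nat_lit 4, Int.ofNat (nat_lit 1533526048466770176), nat_lit 41051, nat_lit 1⟩,
  ⟨nat_lit 4, Int.ofNat (nat_lit 5079815079522381824), nat_lit 41051, nat_lit 3⟩,
  ⟨nat_lit 4, Int.ofNat (nat_lit 886373898874284544), nat_lit 41115, nat_lit 1⟩,
  ⟨nat_lit 4, Int.ofNat (nat_lit 995132624978219136), nat_lit 41115, nat_lit 2⟩,
  ⟨nat_lit 4, Int.ofNat (nat_lit 3914681965782148608), nat_lit 41115, nat_lit 3⟩,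
  ⟨nat_lit 4, Int.ofNat (nat_lit 914029098212305664), nat_lit 42011, nat_lit 2⟩,
  ⟨nat_lit 4, Int.ofNat (nat_lit 539441054304892288), nat_lit 42011, nat_lit 3⟩,
  ⟨nat_lit 4, Int.ofNat (nat_lit 216827666582131520), nat_lit 42075, nat_lit 1⟩,
  ⟨nat_lit 4, Int.ofNat (nat_lit 636766663008309760), nat_lit 42075, nat_lit 2⟩,
  ⟨nat_lit 4, Int.ofNat (nat_lit 853590334647358848), nat_lit 42139, nat_lit 0⟩,
  ⟨nat_lit 4, Int.ofNat (nat_lit 509655949805810688), nat_lit 73819, nat_lit 0⟩,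
  ⟨nat_lit 4, Int.ofNat (nat_lit 355909425707613312), nat_lit 73819, nat_lit 1⟩,
  ⟨nat_lit 4, Int.ofNat (nat_lit 3822763090554634752), nat_lit 73819, nat_lit 3⟩,
  ⟨nat_lit 4, Int.ofNat (nat_lit 35544435878366496), nat_lit 73883, nat_lit 0⟩,
  ⟨nat_lit 4, Int.ofNat (nat_lit 990521758182137728), nat_lit 73883, nat_lit 1⟩,
  ⟨nat_lit 4, Int.ofNat (nat_lit 2578728169184151552), nat_lit 73883, nat_lit 3⟩,
  ⟨nat_lit 4, Int.ofNat (nat_lit 1129099867082463360), nat_lit 74267, nat_lit 3⟩,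
  ⟨nat_lit 4, Int.ofNat (nat_lit 27116643288014652), nat_lit 74331, nat_lit 1⟩,
  ⟨nat_lit 4, Int.ofNat (nat_lit 908508782866981504), nat_lit 74331, nat_lit 3⟩,
  ⟨nat_lit 4, Int.ofNat (nat_lit 50535458696555544), nat_lit 74395, nat_lit 1⟩,
  ⟨nat_lit 4, Int.ofNat (nat_lit 908773051746951168), nat_lit 74395, nat_lit 3⟩,
  ⟨nat_lit 4, Int.ofNat (nat_lit 208689018818292448), nat_lit 74779, nat_lit 0⟩,
  ⟨nat_lit 4, Int.ofNat (nat_lit 933826550962136704), nat_lit 74779, nat_lit 1⟩,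
  ⟨nat_lit 4, Int.ofNat (nat_lit 516796529225793728), nat_lit 74779, nat_lit 3⟩,
  ⟨nat_lit 4, Int.ofNat (nat_lit 280262279803164224), nat_lit 74843, nat_lit 0⟩,
  ⟨nat_lit 4, Int.ofNat (nat_lit 271247573775340992), nat_lit 74843, nat_lit 3⟩,
  ⟨nat_lit 4, Int.ofNat (nat_lit 176089773036558880), nat_lit 74907, nat_lit 0⟩,
  ⟨nat_lit 4, Int.ofNat (nat_lit 128923778852608416), nat_lit 74907, nat_lit 1⟩]

def r1_3 : List RowD := [⟨nat_lit 4, Int.ofNat (nat_lit 271220057643104992), nat_lit 74907, nat_lit 3⟩,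
  ⟨nat_lit 4, Int.ofNat (nat_lit 357423975710172928), nat_lit 98379, nat_lit 2⟩,
  ⟨nat_lit 4, Int.ofNat (nat_lit 985999119440383360), nat_lit 98387, nat_lit 2⟩,
  ⟨nat_lit 4, Int.ofNat (nat_lit 1112705638304897664), nat_lit 98451, nat_lit 2⟩]

def a1 : List (List RowD) := [r1_0, r1_1, r1_2, r1_3]

theorem a1_ok : (a1.flatten.all fun x => x.ok false 6) = true := by decide +kernel

def pR2_1 : List Src := rowsSrc hS 2 a1.flatten

def m2_1 : List (List Src) := [pR2_1]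

theorem m2_1_eq : [a1.flatten].map (rowsSrc hS 2) = m2_1 := rfl

def pR3_1 : List Src := rowsSrc hS 3 a1.flatten

def m3_1 : List (List Src) := [pR3_1]

theorem m3_1_eq : [a1.flatten].map (rowsSrc hS 3) = m3_1 := rfl

def pR4_1 : List Src := rowsSrc hS 4 a1.flatten

def m4_1 : List (List Src) := [pR4_1]

theorem m4_1_eq : [a1.flatten].map (rowsSrc hS 4) = m4_1 := rfl

def pR5_1_0 : List Src := rowsSrc hS 5 r1_0

def pR5_1_1 : List Src := rowsSrc hS 5 r1_1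

def pR5_1_2 : List Src := rowsSrc hS 5 r1_2

def pR5_1_3 : List Src := rowsSrc hS 5 r1_3

def m5_1 : List (List Src) := [pR5_1_0, pR5_1_1, pR5_1_2, pR5_1_3]

theorem m5_1_eq : a1.map (rowsSrc hS 5) = m5_1 := rfl

def pR6_1 : List Src := rowsSrc hS 6 a1.flatten

def m6_1 : List (List Src) := [pR6_1]

theorem m6_1_eq : [a1.flatten].map (rowsSrc hS 6) = m6_1 := rfl

end MP433Sys.FC

/-! generated data: degree rows 2 -/

set_option linter.style.longLine false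

namespace MP433Sys.FC

def r2_0 : List RowD := [⟨nat_lit 5, Int.ofNat (nat_lit 661088405201839232), nat_lit 262668, nat_lit 0⟩,
  ⟨nat_lit 5, Int.ofNat (nat_lit 173537783275069184), nat_lit 262788, nat_lit 0⟩,
  ⟨nat_lit 5, Int.ofNat (nat_lit 532500895808711744), nat_lit 262788, nat_lit 1⟩,
  ⟨nat_lit 5, Int.ofNat (nat_lit 431063976702748288), nat_lit 263188, nat_lit 0⟩,
  ⟨nat_lit 5, Int.ofNat (nat_lit 256542998518311008), nat_lit 263236, nat_lit 4⟩,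
  ⟨nat_lit 5, Int.ofNat (nat_lit 450867633578315648), nat_lit 263300, nat_lit 1⟩,
  ⟨nat_lit 5, Int.ofNat (nat_lit 1402919835169938432), nat_lit 263300, nat_lit 3⟩,
  ⟨nat_lit 5, Int.ofNat (nat_lit 809828126350276224), nat_lit 270468, nat_lit 1⟩,
  ⟨nat_lit 5, Int.ofNat (nat_lit 291682736386238400), nat_lit 295044, nat_lit 1⟩,
  ⟨nat_lit 5, Int.ofNat (nat_lit 2467277224531032576), nat_lit 295436, nat_lit 0⟩,
  ⟨nat_lit 5, Int.ofNat (nat_lit 526740085962955136), nat_lit 295956, nat_lit 1⟩,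
  ⟨nat_lit 5, Int.ofNat (nat_lit 525608586180332800), nat_lit 303236, nat_lit 0⟩,
  ⟨nat_lit 5, Int.ofNat (nat_lit 351552482705612672), nat_lit 327700, nat_lit 3⟩,
  ⟨nat_lit 5, Int.ofNat (nat_lit 358730160382132032), nat_lit 327812, nat_lit 2⟩,
  ⟨nat_lit 5, Int.ofNat (nat_lit 1989928171957080832), nat_lit 328204, nat_lit 0⟩]

def r2_1 : List RowD := [⟨nat_lit 5, Int.ofNat (nat_lit 1203240980928467456), nat_lit 328724, nat_lit 2⟩,
  ⟨nat_lit 5, Int.ofNat (nat_lit 378770635483607296), nat_lit 336004, nat_lit 2⟩,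
  ⟨nat_lit 5, Int.ofNat (nat_lit 1036790744763726240), nat_lit 525332, nat_lit 0⟩,
  ⟨nat_lit 5, Int.ofNat (nat_lit 1442398285927579392), nat_lit 525444, nat_lit 0⟩,
  ⟨nat_lit 5, Int.ofNat (nat_lit 2762319711302129624), nat_lit 525444, nat_lit 1⟩,
  ⟨nat_lit 5, Int.ofNat (nat_lit 461535273844149312), nat_lit 557076, nat_lit 0⟩,
  ⟨nat_lit 5, Int.ofNat (nat_lit 6764682201726568), nat_lit 557076, nat_lit 4⟩,
  ⟨nat_lit 5, Int.ofNat (nat_lit 484294125243079360), nat_lit 557188, nat_lit 0⟩,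
  ⟨nat_lit 5, Int.ofNat (nat_lit 110660849484244656), nat_lit 557188, nat_lit 1⟩,
  ⟨nat_lit 5, Int.ofNat (nat_lit 1330975229506942720), nat_lit 558100, nat_lit 0⟩,
  ⟨nat_lit 5, Int.ofNat (nat_lit 724250044480844288), nat_lit 558100, nat_lit 2⟩,
  ⟨nat_lit 5, Int.ofNat (nat_lit 1307973607936270848), nat_lit 558100, nat_lit 4⟩,
  ⟨nat_lit 5, Int.ofNat (nat_lit 2015849367055779328), nat_lit 558148, nat_lit 4⟩,
  ⟨nat_lit 5, Int.ofNat (nat_lit 2660583251246193152), nat_lit 558212, nat_lit 4⟩,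
  ⟨nat_lit 5, Int.ofNat (nat_lit 1636177012652258560), nat_lit 561220, nat_lit 2⟩]

def r2_2 : List RowD := [⟨nat_lit 5, Int.ofNat (nat_lit 182194946313139712), nat_lit 561220, nat_lit 4⟩,
  ⟨nat_lit 5, Int.ofNat (nat_lit 1046622425452956544), nat_lit 561284, nat_lit 4⟩,
  ⟨nat_lit 5, Int.ofNat (nat_lit 2403111959733863424), nat_lit 565380, nat_lit 0⟩,
  ⟨nat_lit 5, Int.ofNat (nat_lit 1838578611619177216), nat_lit 565380, nat_lit 1⟩,
  ⟨nat_lit 5, Int.ofNat (nat_lit 396776472320698112), nat_lit 565380, nat_lit 2⟩,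
  ⟨nat_lit 5, Int.ofNat (nat_lit 378242800199416064), nat_lit 565380, nat_lit 4⟩,
  ⟨nat_lit 5, Int.ofNat (nat_lit 499569976250538368), nat_lit 589836, nat_lit 2⟩,
  ⟨nat_lit 5, Int.ofNat (nat_lit 1146607243139909512), nat_lit 589844, nat_lit 0⟩,
  ⟨nat_lit 5, Int.ofNat (nat_lit 757372024819542632), nat_lit 589844, nat_lit 2⟩,
  ⟨nat_lit 5, Int.ofNat (nat_lit 644932904719300864), nat_lit 589972, nat_lit 2⟩,
  ⟨nat_lit 5, Int.ofNat (nat_lit 1117864272899056640), nat_lit 590868, nat_lit 2⟩,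
  ⟨nat_lit 5, Int.ofNat (nat_lit 1035113043587831552), nat_lit 590916, nat_lit 4⟩,
  ⟨nat_lit 5, Int.ofNat (nat_lit 76066134514604016), nat_lit 4793492, nat_lit 0⟩,
  ⟨nat_lit 5, Int.ofNat (nat_lit 161081346682524000), nat_lit 16810004, nat_lit 0⟩,
  ⟨nat_lit 5, Int.ofNat (nat_lit 493426568744646272), nat_lit 16810004, nat_lit 2⟩]

def r2_3 : List RowD := [⟨nat_lit 5, Int.ofNat (nat_lit 339315802060432256), nat_lit 16842764, nat_lit 2⟩,
  ⟨nat_lit 5, Int.ofNat (nat_lit 886569785755155456), nat_lit 16842772, nat_lit 0⟩,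
  ⟨nat_lit 5, Int.ofNat (nat_lit 365168925110344576), nat_lit 16842772, nat_lit 2⟩,
  ⟨nat_lit 5, Int.ofNat (nat_lit 646180683830268032), nat_lit 16843268, nat_lit 0⟩,
  ⟨nat_lit 5, Int.ofNat (nat_lit 375882584353487168), nat_lit 16843268, nat_lit 2⟩,
  ⟨nat_lit 5, Int.ofNat (nat_lit 470204138663988736), nat_lit 16843268, nat_lit 4⟩,
  ⟨nat_lit 5, Int.ofNat (nat_lit 536292293909736640), nat_lit 16843780, nat_lit 0⟩,
  ⟨nat_lit 5, Int.ofNat (nat_lit 246443486348222016), nat_lit 16843780, nat_lit 2⟩,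
  ⟨nat_lit 5, Int.ofNat (nat_lit 448143827964071616), nat_lit 16843908, nat_lit 3⟩,
  ⟨nat_lit 5, Int.ofNat (nat_lit 1250484438898638080), nat_lit 17072652, nat_lit 0⟩,
  ⟨nat_lit 5, Int.ofNat (nat_lit 620174173503376512), nat_lit 17072652, nat_lit 3⟩,
  ⟨nat_lit 5, Int.ofNat (nat_lit 1346264492834490112), nat_lit 17104908, nat_lit 4⟩,
  ⟨nat_lit 5, Int.ofNat (nat_lit 952209120164167552), nat_lit 17104916, nat_lit 4⟩,
  ⟨nat_lit 5, Int.ofNat (nat_lit 3512173680967321088), nat_lit 17105420, nat_lit 4⟩,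
  ⟨nat_lit 5, Int.ofNat (nat_lit 368408419956151168), nat_lit 17113092, nat_lit 3⟩]

def r2_4 : List RowD := [⟨nat_lit 5, Int.ofNat (nat_lit 340309703821724480), nat_lit 17335300, nat_lit 0⟩,
  ⟨nat_lit 5, Int.ofNat (nat_lit 1411842792176727296), nat_lit 17335300, nat_lit 2⟩,
  ⟨nat_lit 5, Int.ofNat (nat_lit 1451835376055302144), nat_lit 17335316, nat_lit 0⟩,
  ⟨nat_lit 5, Int.ofNat (nat_lit 316081705112003200), nat_lit 17342468, nat_lit 0⟩,
  ⟨nat_lit 5, Int.ofNat (nat_lit 471784449351645568), nat_lit 17367052, nat_lit 4⟩,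
  ⟨nat_lit 5, Int.ofNat (nat_lit 1439502273194710528), nat_lit 17367060, nat_lit 4⟩,
  ⟨nat_lit 5, Int.ofNat (nat_lit 124865331794251296), nat_lit 17367172, nat_lit 4⟩,
  ⟨nat_lit 5, Int.ofNat (nat_lit 948271657852122752), nat_lit 17367556, nat_lit 2⟩,
  ⟨nat_lit 5, Int.ofNat (nat_lit 925731527321861632), nat_lit 17368068, nat_lit 1⟩,
  ⟨nat_lit 5, Int.ofNat (nat_lit 1048701869535000704), nat_lit 17368068, nat_lit 2⟩,
  ⟨nat_lit 5, Int.ofNat (nat_lit 4171103874591306240), nat_lit 17368084, nat_lit 0⟩,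
  ⟨nat_lit 5, Int.ofNat (nat_lit 3881981830695320064), nat_lit 17375236, nat_lit 1⟩,
  ⟨nat_lit 5, Int.ofNat (nat_lit 2635643608962299392), nat_lit 17375236, nat_lit 3⟩,
  ⟨nat_lit 5, Int.ofNat (nat_lit 527961405234843328), nat_lit 17375252, nat_lit 1⟩,
  ⟨nat_lit 5, Int.ofNat (nat_lit 1254174213077950464), nat_lit 17375252, nat_lit 4⟩]

def r2_5 : List RowD := [⟨nat_lit 5, Int.ofNat (nat_lit 629393866794747776), nat_lit 17375364, nat_lit 3⟩,
  ⟨nat_lit 5, Int.ofNat (nat_lit 4532812878862430720), nat_lit 33619980, nat_lit 0⟩,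
  ⟨nat_lit 5, Int.ofNat (nat_lit 3114203467661408256), nat_lit 33619980, nat_lit 2⟩,
  ⟨nat_lit 5, Int.ofNat (nat_lit 2730099020088458364), nat_lit 33619988, nat_lit 0⟩,
  ⟨nat_lit 5, Int.ofNat (nat_lit 1932185686029332096), nat_lit 33619988, nat_lit 2⟩,
  ⟨nat_lit 5, Int.ofNat (nat_lit 1967714654249288192), nat_lit 33620492, nat_lit 3⟩,
  ⟨nat_lit 5, Int.ofNat (nat_lit 2209696876478592256), nat_lit 33620612, nat_lit 2⟩,
  ⟨nat_lit 5, Int.ofNat (nat_lit 275231294975356256), nat_lit 33621004, nat_lit 3⟩,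
  ⟨nat_lit 5, Int.ofNat (nat_lit 244746632379572576), nat_lit 33621012, nat_lit 2⟩,
  ⟨nat_lit 5, Int.ofNat (nat_lit 1142456887210130048), nat_lit 33882628, nat_lit 2⟩,
  ⟨nat_lit 5, Int.ofNat (nat_lit 2059881615590715136), nat_lit 33882636, nat_lit 3⟩,
  ⟨nat_lit 5, Int.ofNat (nat_lit 1564455430288803072), nat_lit 33886212, nat_lit 3⟩,
  ⟨nat_lit 5, Int.ofNat (nat_lit 4609141993291414528), nat_lit 33890308, nat_lit 2⟩,
  ⟨nat_lit 5, Int.ofNat (nat_lit 1938301404957540396), nat_lit 34145284, nat_lit 2⟩,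
  ⟨nat_lit 5, Int.ofNat (nat_lit 2715109367807974912), nat_lit 34145300, nat_lit 3⟩]

def r2_6 : List RowD := [⟨nat_lit 5, Int.ofNat (nat_lit 702034150023253980), nat_lit 34152452, nat_lit 2⟩,
  ⟨nat_lit 5, Int.ofNat (nat_lit 1917420341684263168), nat_lit 34152468, nat_lit 4⟩,
  ⟨nat_lit 5, Int.ofNat (nat_lit 119367397760306464), nat_lit 36246612, nat_lit 0⟩,
  ⟨nat_lit 5, Int.ofNat (nat_lit 420161755427219584), nat_lit 38347924, nat_lit 0⟩,
  ⟨nat_lit 5, Int.ofNat (nat_lit 97154210250444880), nat_lit 38347924, nat_lit 2⟩,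
  ⟨nat_lit 5, Int.ofNat (nat_lit 1391823728944562944), nat_lit 151027732, nat_lit 3⟩,
  ⟨nat_lit 5, Int.ofNat (nat_lit 569296902730987008), nat_lit 151028756, nat_lit 1⟩,
  ⟨nat_lit 5, Int.ofNat (nat_lit 1672233093990902528), nat_lit 151028756, nat_lit 4⟩,
  ⟨nat_lit 5, Int.ofNat (nat_lit 761277447863559936), nat_lit 151060500, nat_lit 0⟩,
  ⟨nat_lit 5, Int.ofNat (nat_lit 73065299520043728), nat_lit 151060500, nat_lit 3⟩,
  ⟨nat_lit 5, Int.ofNat (nat_lit 571488861200665536), nat_lit 151060500, nat_lit 4⟩,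
  ⟨nat_lit 5, Int.ofNat (nat_lit 1539665514417143808), nat_lit 151061524, nat_lit 4⟩,
  ⟨nat_lit 5, Int.ofNat (nat_lit 417577939505132992), nat_lit 151290380, nat_lit 2⟩,
  ⟨nat_lit 5, Int.ofNat (nat_lit 1556500851228571648), nat_lit 151323148, nat_lit 4⟩,
  ⟨nat_lit 5, Int.ofNat (nat_lit 616183793777679744), nat_lit 151553044, nat_lit 0⟩]

def r2_7 : List RowD := [⟨nat_lit 5, Int.ofNat (nat_lit 1649403992040672000), nat_lit 151585812, nat_lit 2⟩,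
  ⟨nat_lit 5, Int.ofNat (nat_lit 230147295815671104), nat_lit 153654356, nat_lit 0⟩,
  ⟨nat_lit 5, Int.ofNat (nat_lit 355015450645807936), nat_lit 153654356, nat_lit 1⟩,
  ⟨nat_lit 5, Int.ofNat (nat_lit 37334548659341216), nat_lit 153654356, nat_lit 2⟩,
  ⟨nat_lit 5, Int.ofNat (nat_lit 3693991449388673024), nat_lit 167837708, nat_lit 0⟩,
  ⟨nat_lit 5, Int.ofNat (nat_lit 3288193281846510080), nat_lit 167837708, nat_lit 2⟩,
  ⟨nat_lit 5, Int.ofNat (nat_lit 2730089224894344704), nat_lit 167837716, nat_lit 0⟩,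
  ⟨nat_lit 5, Int.ofNat (nat_lit 2232255333832917760), nat_lit 167837716, nat_lit 2⟩,
  ⟨nat_lit 5, Int.ofNat (nat_lit 1860300681375354624), nat_lit 168100364, nat_lit 3⟩,
  ⟨nat_lit 5, Int.ofNat (nat_lit 1259600056487681792), nat_lit 168363012, nat_lit 2⟩,
  ⟨nat_lit 5, Int.ofNat (nat_lit 1629497590643078912), nat_lit 168363028, nat_lit 3⟩,
  ⟨nat_lit 5, Int.ofNat (nat_lit 623394329546999040), nat_lit 168363140, nat_lit 1⟩,
  ⟨nat_lit 5, Int.ofNat (nat_lit 49033230995347520), nat_lit 170464404, nat_lit 1⟩,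
  ⟨nat_lit 5, Int.ofNat (nat_lit 76036488203166400), nat_lit 172565652, nat_lit 0⟩,
  ⟨nat_lit 5, Int.ofNat (nat_lit 43007185401103096), nat_lit 172565652, nat_lit 3⟩]

def r2_8 : List RowD := [⟨nat_lit 5, Int.ofNat (nat_lit 1764818031743555328), nat_lit 302056468, nat_lit 4⟩,
  ⟨nat_lit 5, Int.ofNat (nat_lit 721395468064650112), nat_lit 302318092, nat_lit 2⟩,
  ⟨nat_lit 5, Int.ofNat (nat_lit 538569186437572352), nat_lit 302580756, nat_lit 2⟩,
  ⟨nat_lit 5, Int.ofNat (nat_lit 382244228348515456), nat_lit 302580868, nat_lit 3⟩,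
  ⟨nat_lit 5, Int.ofNat (nat_lit 52404196154806512), nat_lit 302589076, nat_lit 0⟩,
  ⟨nat_lit 5, Int.ofNat (nat_lit 498461078763061504), nat_lit 306783380, nat_lit 0⟩,
  ⟨nat_lit 5, Int.ofNat (nat_lit 1574785186751908608), nat_lit 262747, nat_lit 3⟩,
  ⟨nat_lit 5, Int.ofNat (nat_lit 123776163781708464), nat_lit 263195, nat_lit 0⟩,
  ⟨nat_lit 5, Int.ofNat (nat_lit 768536624858128384), nat_lit 263259, nat_lit 1⟩,
  ⟨nat_lit 5, Int.ofNat (nat_lit 967123344069644160), nat_lit 263259, nat_lit 3⟩,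
  ⟨nat_lit 5, Int.ofNat (nat_lit 1480424520069449472), nat_lit 263259, nat_lit 4⟩,
  ⟨nat_lit 5, Int.ofNat (nat_lit 109395986507954400), nat_lit 263323, nat_lit 0⟩,
  ⟨nat_lit 5, Int.ofNat (nat_lit 1019197278455062272), nat_lit 263323, nat_lit 1⟩,
  ⟨nat_lit 5, Int.ofNat (nat_lit 165385221436154976), nat_lit 266267, nat_lit 4⟩,
  ⟨nat_lit 5, Int.ofNat (nat_lit 1377294668373921536), nat_lit 270363, nat_lit 2⟩]

def r2_9 : List RowD := [⟨nat_lit 5, Int.ofNat (nat_lit 291813684847079680), nat_lit 270363, nat_lit 3⟩,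
  ⟨nat_lit 5, Int.ofNat (nat_lit 859128464750386176), nat_lit 299035, nat_lit 4⟩,
  ⟨nat_lit 5, Int.ofNat (nat_lit 619510069293749120), nat_lit 335899, nat_lit 3⟩,
  ⟨nat_lit 5, Int.ofNat (nat_lit 1777372481717949184), nat_lit 335963, nat_lit 3⟩,
  ⟨nat_lit 5, Int.ofNat (nat_lit 1517725316043967488), nat_lit 336027, nat_lit 3⟩,
  ⟨nat_lit 5, Int.ofNat (nat_lit 112634900283657740), nat_lit 525339, nat_lit 0⟩,
  ⟨nat_lit 5, Int.ofNat (nat_lit 577935741230844544), nat_lit 525403, nat_lit 0⟩,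
  ⟨nat_lit 5, Int.ofNat (nat_lit 1114634743796555136), nat_lit 525403, nat_lit 3⟩,
  ⟨nat_lit 5, Int.ofNat (nat_lit 510570095832805952), nat_lit 525467, nat_lit 1⟩,
  ⟨nat_lit 5, Int.ofNat (nat_lit 559434063399524544), nat_lit 528411, nat_lit 0⟩,
  ⟨nat_lit 5, Int.ofNat (nat_lit 411754836135756096), nat_lit 528475, nat_lit 1⟩,
  ⟨nat_lit 5, Int.ofNat (nat_lit 245996471623400384), nat_lit 528539, nat_lit 1⟩,
  ⟨nat_lit 5, Int.ofNat (nat_lit 610825082167996160), nat_lit 529435, nat_lit 0⟩,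
  ⟨nat_lit 5, Int.ofNat (nat_lit 106047802845311904), nat_lit 529435, nat_lit 1⟩,
  ⟨nat_lit 5, Int.ofNat (nat_lit 517306821949221248), nat_lit 529499, nat_lit 2⟩]

def r2_10 : List RowD := [⟨nat_lit 5, Int.ofNat (nat_lit 543635421647240896), nat_lit 529563, nat_lit 0⟩,
  ⟨nat_lit 5, Int.ofNat (nat_lit 1787680807473072024), nat_lit 532507, nat_lit 0⟩,
  ⟨nat_lit 5, Int.ofNat (nat_lit 3632767724401050200), nat_lit 532507, nat_lit 1⟩,
  ⟨nat_lit 5, Int.ofNat (nat_lit 1419777554199673344), nat_lit 532571, nat_lit 1⟩,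
  ⟨nat_lit 5, Int.ofNat (nat_lit 1896153679111218432), nat_lit 532571, nat_lit 2⟩,
  ⟨nat_lit 5, Int.ofNat (nat_lit 2939301923610409472), nat_lit 532635, nat_lit 1⟩,
  ⟨nat_lit 5, Int.ofNat (nat_lit 1251364912666115328), nat_lit 532635, nat_lit 2⟩,
  ⟨nat_lit 5, Int.ofNat (nat_lit 646007722832468736), nat_lit 533531, nat_lit 0⟩,
  ⟨nat_lit 5, Int.ofNat (nat_lit 520977762821236224), nat_lit 533595, nat_lit 2⟩,
  ⟨nat_lit 5, Int.ofNat (nat_lit 517048695213982848), nat_lit 533659, nat_lit 2⟩,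
  ⟨nat_lit 5, Int.ofNat (nat_lit 1217801636495714816), nat_lit 561179, nat_lit 0⟩,
  ⟨nat_lit 5, Int.ofNat (nat_lit 2829006192940751360), nat_lit 561179, nat_lit 4⟩,
  ⟨nat_lit 5, Int.ofNat (nat_lit 1363623225672295680), nat_lit 561243, nat_lit 3⟩,
  ⟨nat_lit 5, Int.ofNat (nat_lit 1235667914916420352), nat_lit 561243, nat_lit 4⟩,
  ⟨nat_lit 5, Int.ofNat (nat_lit 514740874428489920), nat_lit 561307, nat_lit 1⟩]

def r2_11 : List RowD := [⟨nat_lit 5, Int.ofNat (nat_lit 161713993398479328), nat_lit 565275, nat_lit 1⟩,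
  ⟨nat_lit 5, Int.ofNat (nat_lit 3937387369599889408), nat_lit 565275, nat_lit 4⟩,
  ⟨nat_lit 5, Int.ofNat (nat_lit 1571084617767961856), nat_lit 565339, nat_lit 1⟩,
  ⟨nat_lit 5, Int.ofNat (nat_lit 513649871223545472), nat_lit 565339, nat_lit 2⟩,
  ⟨nat_lit 5, Int.ofNat (nat_lit 1801405446010567936), nat_lit 565403, nat_lit 1⟩,
  ⟨nat_lit 5, Int.ofNat (nat_lit 422221695606931648), nat_lit 565403, nat_lit 2⟩,
  ⟨nat_lit 5, Int.ofNat (nat_lit 1356716975490937024), nat_lit 598043, nat_lit 3⟩,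
  ⟨nat_lit 5, Int.ofNat (nat_lit 613953844882955264), nat_lit 598107, nat_lit 0⟩,
  ⟨nat_lit 5, Int.ofNat (nat_lit 1017750186994584576), nat_lit 598107, nat_lit 1⟩,
  ⟨nat_lit 5, Int.ofNat (nat_lit 1907017466556340992), nat_lit 598107, nat_lit 3⟩,
  ⟨nat_lit 5, Int.ofNat (nat_lit 709059209648074240), nat_lit 598107, nat_lit 4⟩,
  ⟨nat_lit 5, Int.ofNat (nat_lit 184064823200661856), nat_lit 598171, nat_lit 0⟩,
  ⟨nat_lit 5, Int.ofNat (nat_lit 1253938704059750912), nat_lit 598171, nat_lit 1⟩,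
  ⟨nat_lit 5, Int.ofNat (nat_lit 2583903882457155584), nat_lit 598171, nat_lit 3⟩,
  ⟨nat_lit 5, Int.ofNat (nat_lit 45223612949726960), nat_lit 2101275, nat_lit 0⟩]

def r2_12 : List RowD := [⟨nat_lit 5, Int.ofNat (nat_lit 8387109067086404), nat_lit 2101275, nat_lit 1⟩,
  ⟨nat_lit 5, Int.ofNat (nat_lit 99441458145758576), nat_lit 2102363, nat_lit 1⟩,
  ⟨nat_lit 5, Int.ofNat (nat_lit 1382539114274610944), nat_lit 2105371, nat_lit 0⟩,
  ⟨nat_lit 5, Int.ofNat (nat_lit 1333405083911754240), nat_lit 2105371, nat_lit 3⟩,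
  ⟨nat_lit 5, Int.ofNat (nat_lit 156238708370712960), nat_lit 2129947, nat_lit 0⟩,
  ⟨nat_lit 5, Int.ofNat (nat_lit 532330103016222656), nat_lit 2130011, nat_lit 0⟩,
  ⟨nat_lit 5, Int.ofNat (nat_lit 533049315516910976), nat_lit 2130075, nat_lit 0⟩,
  ⟨nat_lit 5, Int.ofNat (nat_lit 528962559297864448), nat_lit 2162715, nat_lit 0⟩,
  ⟨nat_lit 5, Int.ofNat (nat_lit 1172859228926669568), nat_lit 2162715, nat_lit 2⟩,
  ⟨nat_lit 5, Int.ofNat (nat_lit 2911083644428607488), nat_lit 2424859, nat_lit 1⟩,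
  ⟨nat_lit 5, Int.ofNat (nat_lit 2803780828346103296), nat_lit 2687003, nat_lit 0⟩,
  ⟨nat_lit 5, Int.ofNat (nat_lit 239142565083617376), nat_lit 2687003, nat_lit 1⟩,
  ⟨nat_lit 5, Int.ofNat (nat_lit 3424354737081328640), nat_lit 2687003, nat_lit 2⟩,
  ⟨nat_lit 5, Int.ofNat (nat_lit 476212195281872576), nat_lit 2687003, nat_lit 3⟩,
  ⟨nat_lit 5, Int.ofNat (nat_lit 773723959773746176), nat_lit 2687003, nat_lit 4⟩]

def r2_13 : List RowD := [⟨nat_lit 5, Int.ofNat (nat_lit 2586507267226784944), nat_lit 4202523, nat_lit 0⟩,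
  ⟨nat_lit 5, Int.ofNat (nat_lit 741041545411420600), nat_lit 4202523, nat_lit 1⟩,
  ⟨nat_lit 5, Int.ofNat (nat_lit 5191639739406800896), nat_lit 4235291, nat_lit 4⟩,
  ⟨nat_lit 5, Int.ofNat (nat_lit 195879927409207008), nat_lit 4259931, nat_lit 0⟩,
  ⟨nat_lit 5, Int.ofNat (nat_lit 193209116402290464), nat_lit 4259995, nat_lit 0⟩,
  ⟨nat_lit 5, Int.ofNat (nat_lit 537251568984129600), nat_lit 4263963, nat_lit 1⟩,
  ⟨nat_lit 5, Int.ofNat (nat_lit 744546916479253968), nat_lit 4268059, nat_lit 2⟩,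
  ⟨nat_lit 5, Int.ofNat (nat_lit 233159883191155616), nat_lit 4788251, nat_lit 1⟩,
  ⟨nat_lit 5, Int.ofNat (nat_lit 488176479127927360), nat_lit 18911387, nat_lit 3⟩,
  ⟨nat_lit 5, Int.ofNat (nat_lit 419544716200779200), nat_lit 21041179, nat_lit 3⟩,
  ⟨nat_lit 5, Int.ofNat (nat_lit 484389433420256576), nat_lit 21045275, nat_lit 4⟩,
  ⟨nat_lit 5, Int.ofNat (nat_lit 91893178398292836), nat_lit 37822491, nat_lit 3⟩,
  ⟨nat_lit 5, Int.ofNat (nat_lit 179729866439320960), nat_lit 37822555, nat_lit 0⟩,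
  ⟨nat_lit 5, Int.ofNat (nat_lit 359515253990971200), nat_lit 37822619, nat_lit 3⟩,
  ⟨nat_lit 5, Int.ofNat (nat_lit 435518552364681856), nat_lit 134218779, nat_lit 3⟩]

def r2_14 : List RowD := [⟨nat_lit 5, Int.ofNat (nat_lit 1507973757016834816), nat_lit 134218843, nat_lit 3⟩,
  ⟨nat_lit 5, Int.ofNat (nat_lit 642660312984718720), nat_lit 134218907, nat_lit 1⟩,
  ⟨nat_lit 5, Int.ofNat (nat_lit 697925214112481024), nat_lit 134218907, nat_lit 3⟩,
  ⟨nat_lit 5, Int.ofNat (nat_lit 1505549295356918528), nat_lit 134225947, nat_lit 0⟩,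
  ⟨nat_lit 5, Int.ofNat (nat_lit 583965883985660160), nat_lit 134225947, nat_lit 1⟩,
  ⟨nat_lit 5, Int.ofNat (nat_lit 1583636892473026816), nat_lit 134254619, nat_lit 0⟩,
  ⟨nat_lit 5, Int.ofNat (nat_lit 1282063668188320256), nat_lit 134254683, nat_lit 0⟩,
  ⟨nat_lit 5, Int.ofNat (nat_lit 1585767703622109696), nat_lit 134254747, nat_lit 0⟩,
  ⟨nat_lit 5, Int.ofNat (nat_lit 198187161578325600), nat_lit 134258843, nat_lit 2⟩,
  ⟨nat_lit 5, Int.ofNat (nat_lit 286400662141648832), nat_lit 134291483, nat_lit 3⟩,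
  ⟨nat_lit 5, Int.ofNat (nat_lit 1789656909449710080), nat_lit 134291547, nat_lit 0⟩,
  ⟨nat_lit 5, Int.ofNat (nat_lit 1750516929000044032), nat_lit 134291611, nat_lit 0⟩,
  ⟨nat_lit 5, Int.ofNat (nat_lit 1737014683614362112), nat_lit 134746139, nat_lit 2⟩,
  ⟨nat_lit 5, Int.ofNat (nat_lit 1576751948705385472), nat_lit 134746139, nat_lit 3⟩,
  ⟨nat_lit 5, Int.ofNat (nat_lit 1272203279482128128), nat_lit 134746203, nat_lit 4⟩]

def r2_15 : List RowD := [⟨nat_lit 5, Int.ofNat (nat_lit 1595170184344988672), nat_lit 134746267, nat_lit 4⟩,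
  ⟨nat_lit 5, Int.ofNat (nat_lit 4189967689451277824), nat_lit 134750235, nat_lit 2⟩,
  ⟨nat_lit 5, Int.ofNat (nat_lit 1739574027743798016), nat_lit 134750299, nat_lit 2⟩,
  ⟨nat_lit 5, Int.ofNat (nat_lit 1732489955443799808), nat_lit 134750363, nat_lit 2⟩,
  ⟨nat_lit 5, Int.ofNat (nat_lit 1939689095359059200), nat_lit 134778907, nat_lit 0⟩,
  ⟨nat_lit 5, Int.ofNat (nat_lit 659062339369252096), nat_lit 134778971, nat_lit 1⟩,
  ⟨nat_lit 5, Int.ofNat (nat_lit 797160704967485056), nat_lit 134779035, nat_lit 0⟩,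
  ⟨nat_lit 5, Int.ofNat (nat_lit 1422943249251990528), nat_lit 134783003, nat_lit 3⟩,
  ⟨nat_lit 5, Int.ofNat (nat_lit 1802464233299469056), nat_lit 134783067, nat_lit 4⟩,
  ⟨nat_lit 5, Int.ofNat (nat_lit 2262147386345760256), nat_lit 134783131, nat_lit 2⟩,
  ⟨nat_lit 5, Int.ofNat (nat_lit 998827867021808512), nat_lit 134815771, nat_lit 3⟩,
  ⟨nat_lit 5, Int.ofNat (nat_lit 1143528982566564096), nat_lit 134815835, nat_lit 1⟩,
  ⟨nat_lit 5, Int.ofNat (nat_lit 1176852867626734592), nat_lit 134815899, nat_lit 1⟩,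
  ⟨nat_lit 5, Int.ofNat (nat_lit 533953059982912384), nat_lit 136319003, nat_lit 3⟩,
  ⟨nat_lit 5, Int.ofNat (nat_lit 1709451517886978048), nat_lit 136320027, nat_lit 4⟩]

def r2_16 : List RowD := [⟨nat_lit 5, Int.ofNat (nat_lit 1015602724134908160), nat_lit 136323099, nat_lit 0⟩,
  ⟨nat_lit 5, Int.ofNat (nat_lit 1468177901906607616), nat_lit 136323099, nat_lit 4⟩,
  ⟨nat_lit 5, Int.ofNat (nat_lit 1746159565250358784), nat_lit 136324123, nat_lit 4⟩,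
  ⟨nat_lit 5, Int.ofNat (nat_lit 610822848910092800), nat_lit 136380443, nat_lit 0⟩,
  ⟨nat_lit 5, Int.ofNat (nat_lit 889383794457787648), nat_lit 136380443, nat_lit 1⟩,
  ⟨nat_lit 5, Int.ofNat (nat_lit 475318832227203008), nat_lit 136380443, nat_lit 2⟩,
  ⟨nat_lit 5, Int.ofNat (nat_lit 2660021143212997120), nat_lit 138420251, nat_lit 0⟩,
  ⟨nat_lit 5, Int.ofNat (nat_lit 976147743707336320), nat_lit 138420251, nat_lit 1⟩,
  ⟨nat_lit 5, Int.ofNat (nat_lit 510311960145644416), nat_lit 138420251, nat_lit 3⟩,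
  ⟨nat_lit 5, Int.ofNat (nat_lit 4171872649547420160), nat_lit 138477595, nat_lit 0⟩,
  ⟨nat_lit 5, Int.ofNat (nat_lit 1886677570084171520), nat_lit 138477595, nat_lit 1⟩,
  ⟨nat_lit 5, Int.ofNat (nat_lit 4630731443709844), nat_lit 138478619, nat_lit 2⟩,
  ⟨nat_lit 5, Int.ofNat (nat_lit 322620076804094336), nat_lit 138485787, nat_lit 4⟩,
  ⟨nat_lit 5, Int.ofNat (nat_lit 452393253318471616), nat_lit 153129115, nat_lit 3⟩,
  ⟨nat_lit 5, Int.ofNat (nat_lit 256134518131338368), nat_lit 155258907, nat_lit 3⟩]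

def r2_17 : List RowD := [⟨nat_lit 5, Int.ofNat (nat_lit 294764676816111552), nat_lit 155263003, nat_lit 3⟩,
  ⟨nat_lit 5, Int.ofNat (nat_lit 65922228396189016), nat_lit 155788443, nat_lit 2⟩,
  ⟨nat_lit 5, Int.ofNat (nat_lit 475195692418421312), nat_lit 172040219, nat_lit 3⟩,
  ⟨nat_lit 5, Int.ofNat (nat_lit 1894058258947777280), nat_lit 268435995, nat_lit 0⟩,
  ⟨nat_lit 5, Int.ofNat (nat_lit 3124889061433454592), nat_lit 268435995, nat_lit 3⟩,
  ⟨nat_lit 5, Int.ofNat (nat_lit 1962474435589940480), nat_lit 268436059, nat_lit 1⟩,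
  ⟨nat_lit 5, Int.ofNat (nat_lit 3146556319749652480), nat_lit 268436059, nat_lit 3⟩,
  ⟨nat_lit 5, Int.ofNat (nat_lit 3382164203615637000), nat_lit 268436507, nat_lit 0⟩,
  ⟨nat_lit 5, Int.ofNat (nat_lit 4024967202344638040), nat_lit 268436507, nat_lit 3⟩,
  ⟨nat_lit 5, Int.ofNat (nat_lit 3783295412160145408), nat_lit 268436571, nat_lit 0⟩,
  ⟨nat_lit 5, Int.ofNat (nat_lit 2085445128902117120), nat_lit 268436571, nat_lit 1⟩,
  ⟨nat_lit 5, Int.ofNat (nat_lit 4739597536309181440), nat_lit 268436571, nat_lit 3⟩,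
  ⟨nat_lit 5, Int.ofNat (nat_lit 447276816789919040), nat_lit 268436571, nat_lit 4⟩,
  ⟨nat_lit 5, Int.ofNat (nat_lit 1696607753975365888), nat_lit 268440091, nat_lit 1⟩,
  ⟨nat_lit 5, Int.ofNat (nat_lit 437425946013709760), nat_lit 268440091, nat_lit 3⟩]

def r2_18 : List RowD := [⟨nat_lit 5, Int.ofNat (nat_lit 564334096875785216), nat_lit 268440603, nat_lit 1⟩,
  ⟨nat_lit 5, Int.ofNat (nat_lit 582722754231107072), nat_lit 268440603, nat_lit 3⟩,
  ⟨nat_lit 5, Int.ofNat (nat_lit 1389675302706450432), nat_lit 268444187, nat_lit 3⟩,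
  ⟨nat_lit 5, Int.ofNat (nat_lit 1068635082243231616), nat_lit 268444699, nat_lit 3⟩,
  ⟨nat_lit 5, Int.ofNat (nat_lit 522948047791190592), nat_lit 268472347, nat_lit 3⟩,
  ⟨nat_lit 5, Int.ofNat (nat_lit 721063748697698048), nat_lit 268472411, nat_lit 1⟩,
  ⟨nat_lit 5, Int.ofNat (nat_lit 1150256023359289728), nat_lit 268472411, nat_lit 3⟩,
  ⟨nat_lit 5, Int.ofNat (nat_lit 955813284181830912), nat_lit 268472411, nat_lit 4⟩,
  ⟨nat_lit 5, Int.ofNat (nat_lit 628826283425455104), nat_lit 268472475, nat_lit 0⟩,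
  ⟨nat_lit 5, Int.ofNat (nat_lit 1472043291573138944), nat_lit 268472475, nat_lit 4⟩,
  ⟨nat_lit 5, Int.ofNat (nat_lit 1330408479452302848), nat_lit 268476443, nat_lit 2⟩,
  ⟨nat_lit 5, Int.ofNat (nat_lit 2233460617950922240), nat_lit 268476443, nat_lit 3⟩,
  ⟨nat_lit 5, Int.ofNat (nat_lit 48271478088659976), nat_lit 268476507, nat_lit 1⟩,
  ⟨nat_lit 5, Int.ofNat (nat_lit 344471866976060672), nat_lit 268476507, nat_lit 2⟩,
  ⟨nat_lit 5, Int.ofNat (nat_lit 2053749769431212544), nat_lit 268476507, nat_lit 3⟩]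

def r2_19 : List RowD := [⟨nat_lit 5, Int.ofNat (nat_lit 2578626389074054144), nat_lit 268476507, nat_lit 4⟩,
  ⟨nat_lit 5, Int.ofNat (nat_lit 1464543713037217536), nat_lit 268476571, nat_lit 1⟩,
  ⟨nat_lit 5, Int.ofNat (nat_lit 1507310859592993536), nat_lit 268476571, nat_lit 2⟩,
  ⟨nat_lit 5, Int.ofNat (nat_lit 2053810042269595648), nat_lit 268476571, nat_lit 3⟩,
  ⟨nat_lit 5, Int.ofNat (nat_lit 4708416655023302360), nat_lit 268509211, nat_lit 3⟩,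
  ⟨nat_lit 5, Int.ofNat (nat_lit 1282480948588742656), nat_lit 268509275, nat_lit 0⟩,
  ⟨nat_lit 5, Int.ofNat (nat_lit 102380531916567856), nat_lit 268509275, nat_lit 1⟩,
  ⟨nat_lit 5, Int.ofNat (nat_lit 3996399487551792128), nat_lit 268509275, nat_lit 3⟩,
  ⟨nat_lit 5, Int.ofNat (nat_lit 1037342902799978880), nat_lit 268509275, nat_lit 4⟩,
  ⟨nat_lit 5, Int.ofNat (nat_lit 1959520321026077696), nat_lit 268509339, nat_lit 0⟩,
  ⟨nat_lit 5, Int.ofNat (nat_lit 1289592954881071872), nat_lit 268509339, nat_lit 1⟩,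
  ⟨nat_lit 5, Int.ofNat (nat_lit 4190904906404305408), nat_lit 268509339, nat_lit 3⟩,
  ⟨nat_lit 5, Int.ofNat (nat_lit 533943601724033856), nat_lit 268509339, nat_lit 4⟩,
  ⟨nat_lit 5, Int.ofNat (nat_lit 2112973233884679424), nat_lit 268701723, nat_lit 2⟩,
  ⟨nat_lit 5, Int.ofNat (nat_lit 73364037215870640), nat_lit 268701723, nat_lit 4⟩]

def r2_20 : List RowD := [⟨nat_lit 5, Int.ofNat (nat_lit 434494846985269632), nat_lit 268771419, nat_lit 4⟩,
  ⟨nat_lit 5, Int.ofNat (nat_lit 2731386046268010496), nat_lit 268963867, nat_lit 2⟩,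
  ⟨nat_lit 5, Int.ofNat (nat_lit 1847851538399000576), nat_lit 268963931, nat_lit 2⟩,
  ⟨nat_lit 5, Int.ofNat (nat_lit 2522995414866918400), nat_lit 268963995, nat_lit 2⟩,
  ⟨nat_lit 5, Int.ofNat (nat_lit 1036441268246892184), nat_lit 268967963, nat_lit 3⟩,
  ⟨nat_lit 5, Int.ofNat (nat_lit 3503084331106948096), nat_lit 268968027, nat_lit 2⟩,
  ⟨nat_lit 5, Int.ofNat (nat_lit 2240453334708450048), nat_lit 268968027, nat_lit 4⟩,
  ⟨nat_lit 5, Int.ofNat (nat_lit 2996409381161781248), nat_lit 268968091, nat_lit 2⟩,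
  ⟨nat_lit 5, Int.ofNat (nat_lit 1437285597003256320), nat_lit 268968091, nat_lit 4⟩,
  ⟨nat_lit 5, Int.ofNat (nat_lit 329388544660509824), nat_lit 268996699, nat_lit 1⟩,
  ⟨nat_lit 5, Int.ofNat (nat_lit 56259568249032384), nat_lit 268996763, nat_lit 1⟩,
  ⟨nat_lit 5, Int.ofNat (nat_lit 1078094941359036928), nat_lit 269000731, nat_lit 3⟩,
  ⟨nat_lit 5, Int.ofNat (nat_lit 779553893135736960), nat_lit 269000795, nat_lit 2⟩,
  ⟨nat_lit 5, Int.ofNat (nat_lit 1055958456319861504), nat_lit 269000859, nat_lit 2⟩,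
  ⟨nat_lit 5, Int.ofNat (nat_lit 33200604713202064), nat_lit 269033499, nat_lit 4⟩]

def r2_21 : List RowD := [⟨nat_lit 5, Int.ofNat (nat_lit 450288777884675648), nat_lit 269033563, nat_lit 1⟩,
  ⟨nat_lit 5, Int.ofNat (nat_lit 814974442235371776), nat_lit 269033627, nat_lit 1⟩,
  ⟨nat_lit 5, Int.ofNat (nat_lit 2438657288167654912), nat_lit 270565403, nat_lit 1⟩,
  ⟨nat_lit 5, Int.ofNat (nat_lit 4639448703553366016), nat_lit 270598171, nat_lit 2⟩,
  ⟨nat_lit 5, Int.ofNat (nat_lit 3792115540848263680), nat_lit 270598171, nat_lit 3⟩,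
  ⟨nat_lit 5, Int.ofNat (nat_lit 1371040573518267904), nat_lit 271065115, nat_lit 3⟩,
  ⟨nat_lit 5, Int.ofNat (nat_lit 281367579913971936), nat_lit 272639003, nat_lit 1⟩,
  ⟨nat_lit 5, Int.ofNat (nat_lit 1717843977365951232), nat_lit 272639003, nat_lit 4⟩,
  ⟨nat_lit 5, Int.ofNat (nat_lit 1442582576513177752), nat_lit 272695323, nat_lit 3⟩,
  ⟨nat_lit 5, Int.ofNat (nat_lit 425211846434676160), nat_lit 287346843, nat_lit 3⟩,
  ⟨nat_lit 5, Int.ofNat (nat_lit 291699411463533184), nat_lit 289476635, nat_lit 3⟩,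
  ⟨nat_lit 5, Int.ofNat (nat_lit 402913528272122240), nat_lit 289480731, nat_lit 3⟩,
  ⟨nat_lit 5, Int.ofNat (nat_lit 50537380886743224), nat_lit 290005659, nat_lit 2⟩,
  ⟨nat_lit 5, Int.ofNat (nat_lit 454676802172228480), nat_lit 306257947, nat_lit 3⟩,
  ⟨nat_lit 5, Int.ofNat (nat_lit 110185827090202288), nat_lit 306783387, nat_lit 0⟩]

def r2_22 : List RowD := [⟨nat_lit 5, Int.ofNat (nat_lit 9305638051030196), nat_lit 306783387, nat_lit 3⟩,
  ⟨nat_lit 5, Int.ofNat (nat_lit 1355497688225854720), nat_lit 360467, nat_lit 1⟩,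
  ⟨nat_lit 5, Int.ofNat (nat_lit 655639714051387648), nat_lit 360467, nat_lit 2⟩,
  ⟨nat_lit 5, Int.ofNat (nat_lit 536291304430794368), nat_lit 360515, nat_lit 1⟩,
  ⟨nat_lit 5, Int.ofNat (nat_lit 137860204119658480), nat_lit 360579, nat_lit 1⟩,
  ⟨nat_lit 5, Int.ofNat (nat_lit 283067470043096992), nat_lit 360579, nat_lit 2⟩,
  ⟨nat_lit 5, Int.ofNat (nat_lit 151765730793191200), nat_lit 365699, nat_lit 4⟩,
  ⟨nat_lit 5, Int.ofNat (nat_lit 202541855006932608), nat_lit 622603, nat_lit 0⟩,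
  ⟨nat_lit 5, Int.ofNat (nat_lit 3509756153671825920), nat_lit 622603, nat_lit 2⟩,
  ⟨nat_lit 5, Int.ofNat (nat_lit 524023836769413296), nat_lit 622611, nat_lit 0⟩,
  ⟨nat_lit 5, Int.ofNat (nat_lit 2949923151086249152), nat_lit 622611, nat_lit 2⟩,
  ⟨nat_lit 5, Int.ofNat (nat_lit 657397909040970624), nat_lit 622667, nat_lit 1⟩,
  ⟨nat_lit 5, Int.ofNat (nat_lit 1286393798346341376), nat_lit 622675, nat_lit 1⟩,
  ⟨nat_lit 5, Int.ofNat (nat_lit 2672830475454878720), nat_lit 622731, nat_lit 1⟩,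
  ⟨nat_lit 5, Int.ofNat (nat_lit 51232564490952016), nat_lit 622731, nat_lit 4⟩]

def r2_23 : List RowD := [⟨nat_lit 5, Int.ofNat (nat_lit 3645332500629294592), nat_lit 622739, nat_lit 1⟩,
  ⟨nat_lit 5, Int.ofNat (nat_lit 414531783884587264), nat_lit 622739, nat_lit 3⟩,
  ⟨nat_lit 5, Int.ofNat (nat_lit 1231932978625031680), nat_lit 622739, nat_lit 4⟩,
  ⟨nat_lit 5, Int.ofNat (nat_lit 383208594443216832), nat_lit 623171, nat_lit 1⟩,
  ⟨nat_lit 5, Int.ofNat (nat_lit 1550541439984061184), nat_lit 623171, nat_lit 4⟩,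
  ⟨nat_lit 5, Int.ofNat (nat_lit 1621608733119320576), nat_lit 623235, nat_lit 0⟩,
  ⟨nat_lit 5, Int.ofNat (nat_lit 1416927029275325184), nat_lit 623235, nat_lit 3⟩,
  ⟨nat_lit 5, Int.ofNat (nat_lit 190844212912205152), nat_lit 623683, nat_lit 0⟩,
  ⟨nat_lit 5, Int.ofNat (nat_lit 2552615955687009792), nat_lit 623683, nat_lit 4⟩,
  ⟨nat_lit 5, Int.ofNat (nat_lit 1557306013168589808), nat_lit 623747, nat_lit 0⟩,
  ⟨nat_lit 5, Int.ofNat (nat_lit 457397822641371968), nat_lit 626763, nat_lit 2⟩,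
  ⟨nat_lit 5, Int.ofNat (nat_lit 699124452074358400), nat_lit 626771, nat_lit 2⟩,
  ⟨nat_lit 5, Int.ofNat (nat_lit 964579629988102272), nat_lit 626771, nat_lit 4⟩,
  ⟨nat_lit 5, Int.ofNat (nat_lit 468949280897853504), nat_lit 626827, nat_lit 2⟩,
  ⟨nat_lit 5, Int.ofNat (nat_lit 101099041465229088), nat_lit 626827, nat_lit 4⟩]

def r2_24 : List RowD := [⟨nat_lit 5, Int.ofNat (nat_lit 486933316992592832), nat_lit 626835, nat_lit 1⟩,
  ⟨nat_lit 5, Int.ofNat (nat_lit 913401155178813184), nat_lit 626835, nat_lit 2⟩,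
  ⟨nat_lit 5, Int.ofNat (nat_lit 214525763310468544), nat_lit 627331, nat_lit 1⟩,
  ⟨nat_lit 5, Int.ofNat (nat_lit 735162863476665856), nat_lit 627331, nat_lit 3⟩,
  ⟨nat_lit 5, Int.ofNat (nat_lit 1026846095840224640), nat_lit 627331, nat_lit 4⟩,
  ⟨nat_lit 5, Int.ofNat (nat_lit 1918989557258353152), nat_lit 627843, nat_lit 0⟩,
  ⟨nat_lit 5, Int.ofNat (nat_lit 519620427888039488), nat_lit 627843, nat_lit 1⟩,
  ⟨nat_lit 5, Int.ofNat (nat_lit 1935455041213892352), nat_lit 627843, nat_lit 2⟩,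
  ⟨nat_lit 5, Int.ofNat (nat_lit 132649233452497776), nat_lit 627843, nat_lit 4⟩,
  ⟨nat_lit 5, Int.ofNat (nat_lit 1131724159940011520), nat_lit 630923, nat_lit 2⟩,
  ⟨nat_lit 5, Int.ofNat (nat_lit 760843945657793664), nat_lit 630923, nat_lit 4⟩,
  ⟨nat_lit 5, Int.ofNat (nat_lit 1980814667093241088), nat_lit 630931, nat_lit 0⟩,
  ⟨nat_lit 5, Int.ofNat (nat_lit 963615184013388288), nat_lit 630931, nat_lit 1⟩,
  ⟨nat_lit 5, Int.ofNat (nat_lit 1823573480699373312), nat_lit 630931, nat_lit 3⟩,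
  ⟨nat_lit 5, Int.ofNat (nat_lit 726466953711426944), nat_lit 2457611, nat_lit 2⟩]

def r2_25 : List RowD := [⟨nat_lit 5, Int.ofNat (nat_lit 1841781368114835712), nat_lit 2457619, nat_lit 1⟩,
  ⟨nat_lit 5, Int.ofNat (nat_lit 1936318765557880576), nat_lit 2457619, nat_lit 4⟩,
  ⟨nat_lit 5, Int.ofNat (nat_lit 3640221181943067136), nat_lit 2719755, nat_lit 2⟩,
  ⟨nat_lit 5, Int.ofNat (nat_lit 561398150433016512), nat_lit 2719763, nat_lit 0⟩,
  ⟨nat_lit 5, Int.ofNat (nat_lit 500217911053731072), nat_lit 2719763, nat_lit 1⟩,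
  ⟨nat_lit 5, Int.ofNat (nat_lit 3035886749914677248), nat_lit 2719763, nat_lit 2⟩,
  ⟨nat_lit 5, Int.ofNat (nat_lit 6486831459966580), nat_lit 2719763, nat_lit 3⟩,
  ⟨nat_lit 5, Int.ofNat (nat_lit 1103186880168070784), nat_lit 2719763, nat_lit 4⟩,
  ⟨nat_lit 5, Int.ofNat (nat_lit 866554009736319104), nat_lit 2720899, nat_lit 4⟩,
  ⟨nat_lit 5, Int.ofNat (nat_lit 1941389795488882432), nat_lit 17137795, nat_lit 2⟩,
  ⟨nat_lit 5, Int.ofNat (nat_lit 891510349603199616), nat_lit 17145859, nat_lit 1⟩,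
  ⟨nat_lit 5, Int.ofNat (nat_lit 329557679688382208), nat_lit 17399827, nat_lit 2⟩,
  ⟨nat_lit 5, Int.ofNat (nat_lit 975666257227537792), nat_lit 17399827, nat_lit 4⟩,
  ⟨nat_lit 5, Int.ofNat (nat_lit 559215313273293632), nat_lit 17399875, nat_lit 0⟩,
  ⟨nat_lit 5, Int.ofNat (nat_lit 138530549914909904), nat_lit 17399875, nat_lit 2⟩]

def r2_26 : List RowD := [⟨nat_lit 5, Int.ofNat (nat_lit 959256432707244544), nat_lit 17399939, nat_lit 2⟩,
  ⟨nat_lit 5, Int.ofNat (nat_lit 522298229982358336), nat_lit 17400323, nat_lit 1⟩,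
  ⟨nat_lit 5, Int.ofNat (nat_lit 2106189163094616064), nat_lit 17400835, nat_lit 0⟩,
  ⟨nat_lit 5, Int.ofNat (nat_lit 4229153102430786048), nat_lit 17400835, nat_lit 1⟩,
  ⟨nat_lit 5, Int.ofNat (nat_lit 3473157669962561536), nat_lit 17403907, nat_lit 1⟩,
  ⟨nat_lit 5, Int.ofNat (nat_lit 2975335449277255680), nat_lit 17403907, nat_lit 4⟩,
  ⟨nat_lit 5, Int.ofNat (nat_lit 1151391948318820096), nat_lit 17408003, nat_lit 0⟩,
  ⟨nat_lit 5, Int.ofNat (nat_lit 3973450130054878720), nat_lit 17408003, nat_lit 1⟩,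
  ⟨nat_lit 5, Int.ofNat (nat_lit 674820865442432256), nat_lit 17408003, nat_lit 3⟩,
  ⟨nat_lit 5, Int.ofNat (nat_lit 797265579815358848), nat_lit 17408011, nat_lit 0⟩,
  ⟨nat_lit 5, Int.ofNat (nat_lit 624838890454588928), nat_lit 17408019, nat_lit 0⟩,
  ⟨nat_lit 5, Int.ofNat (nat_lit 58487293907628056), nat_lit 17408019, nat_lit 1⟩,
  ⟨nat_lit 5, Int.ofNat (nat_lit 436152193397197696), nat_lit 19235843, nat_lit 1⟩,
  ⟨nat_lit 5, Int.ofNat (nat_lit 234769457122391136), nat_lit 19497027, nat_lit 3⟩,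
  ⟨nat_lit 5, Int.ofNat (nat_lit 249230914123581728), nat_lit 19497027, nat_lit 4⟩]

def r2_27 : List RowD := [⟨nat_lit 5, Int.ofNat (nat_lit 1128327234972192000), nat_lit 19497091, nat_lit 4⟩,
  ⟨nat_lit 5, Int.ofNat (nat_lit 312949961443019904), nat_lit 21594123, nat_lit 4⟩,
  ⟨nat_lit 5, Int.ofNat (nat_lit 548247705779702976), nat_lit 21594131, nat_lit 4⟩,
  ⟨nat_lit 5, Int.ofNat (nat_lit 248246186032683392), nat_lit 34177035, nat_lit 4⟩,
  ⟨nat_lit 5, Int.ofNat (nat_lit 968451154135531264), nat_lit 34177043, nat_lit 1⟩,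
  ⟨nat_lit 5, Int.ofNat (nat_lit 1147748679355102208), nat_lit 34177043, nat_lit 4⟩,
  ⟨nat_lit 5, Int.ofNat (nat_lit 1865831385689294592), nat_lit 34177091, nat_lit 1⟩,
  ⟨nat_lit 5, Int.ofNat (nat_lit 1340227807007387136), nat_lit 34177091, nat_lit 2⟩,
  ⟨nat_lit 5, Int.ofNat (nat_lit 565225719250978080), nat_lit 34177155, nat_lit 2⟩,
  ⟨nat_lit 5, Int.ofNat (nat_lit 2118845621188480768), nat_lit 34181123, nat_lit 0⟩,
  ⟨nat_lit 5, Int.ofNat (nat_lit 2505941992403585536), nat_lit 34181123, nat_lit 4⟩,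
  ⟨nat_lit 5, Int.ofNat (nat_lit 1943111030588667904), nat_lit 34181187, nat_lit 3⟩,
  ⟨nat_lit 5, Int.ofNat (nat_lit 2415184942198346752), nat_lit 34181251, nat_lit 3⟩,
  ⟨nat_lit 5, Int.ofNat (nat_lit 1014507214932271488), nat_lit 34182275, nat_lit 4⟩,
  ⟨nat_lit 5, Int.ofNat (nat_lit 314891031034849216), nat_lit 34185227, nat_lit 4⟩]

def r2_28 : List RowD := [⟨nat_lit 5, Int.ofNat (nat_lit 348267170029946688), nat_lit 34185235, nat_lit 0⟩,
  ⟨nat_lit 5, Int.ofNat (nat_lit 137577593845271776), nat_lit 34185235, nat_lit 4⟩,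
  ⟨nat_lit 5, Int.ofNat (nat_lit 2948165180247654912), nat_lit 34185283, nat_lit 3⟩,
  ⟨nat_lit 5, Int.ofNat (nat_lit 2917310620619315200), nat_lit 34185347, nat_lit 3⟩,
  ⟨nat_lit 5, Int.ofNat (nat_lit 270230948345599808), nat_lit 34186371, nat_lit 4⟩,
  ⟨nat_lit 5, Int.ofNat (nat_lit 962118800557769216), nat_lit 36013059, nat_lit 1⟩,
  ⟨nat_lit 5, Int.ofNat (nat_lit 663432881023282816), nat_lit 36274243, nat_lit 1⟩,
  ⟨nat_lit 5, Int.ofNat (nat_lit 390952615299616000), nat_lit 36274307, nat_lit 1⟩,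
  ⟨nat_lit 5, Int.ofNat (nat_lit 20031010223813224), nat_lit 36274307, nat_lit 3⟩,
  ⟨nat_lit 5, Int.ofNat (nat_lit 1450813837276635392), nat_lit 36275203, nat_lit 1⟩,
  ⟨nat_lit 5, Int.ofNat (nat_lit 938510485024537472), nat_lit 38371339, nat_lit 0⟩,
  ⟨nat_lit 5, Int.ofNat (nat_lit 491293005097481728), nat_lit 38371347, nat_lit 0⟩,
  ⟨nat_lit 5, Int.ofNat (nat_lit 826120152899044096), nat_lit 38372355, nat_lit 1⟩]

def a2 : List (List RowD) := [r2_0, r2_1, r2_2, r2_3, r2_4, r2_5, r2_6, r2_7, r2_8, r2_9, r2_10, r2_11, r2_12, r2_13, r2_14, r2_15, r2_16, r2_17, r2_18, r2_19, r2_20, r2_21, r2_22, r2_23, r2_24, r2_25, r2_26, r2_27, r2_28]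

theorem a2_ok : (a2.flatten.all fun x => x.ok false 6) = true := by decide +kernel

def pR2_2 : List Src := rowsSrc hS 2 a2.flatten

def m2_2 : List (List Src) := [pR2_2]

theorem m2_2_eq : [a2.flatten].map (rowsSrc hS 2) = m2_2 := rfl

def pR3_2 : List Src := rowsSrc hS 3 a2.flatten

def m3_2 : List (List Src) := [pR3_2]

theorem m3_2_eq : [a2.flatten].map (rowsSrc hS 3) = m3_2 := rfl

def pR4_2 : List Src := rowsSrc hS 4 a2.flatten

def m4_2 : List (List Src) := [pR4_2]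

theorem m4_2_eq : [a2.flatten].map (rowsSrc hS 4) = m4_2 := rfl

def pR5_2 : List Src := rowsSrc hS 5 a2.flatten

def m5_2 : List (List Src) := [pR5_2]

theorem m5_2_eq : [a2.flatten].map (rowsSrc hS 5) = m5_2 := rfl

def pR6_2_0 : List Src := rowsSrc hS 6 r2_0

def pR6_2_1 : List Src := rowsSrc hS 6 r2_1

def pR6_2_2 : List Src := rowsSrc hS 6 r2_2

def pR6_2_3 : List Src := rowsSrc hS 6 r2_3

def pR6_2_4 : List Src := rowsSrc hS 6 r2_4

def pR6_2_5 : List Src := rowsSrc hS 6 r2_5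

def pR6_2_6 : List Src := rowsSrc hS 6 r2_6

def pR6_2_7 : List Src := rowsSrc hS 6 r2_7

def pR6_2_8 : List Src := rowsSrc hS 6 r2_8

def pR6_2_9 : List Src := rowsSrc hS 6 r2_9

def pR6_2_10 : List Src := rowsSrc hS 6 r2_10

def pR6_2_11 : List Src := rowsSrc hS 6 r2_11

def pR6_2_12 : List Src := rowsSrc hS 6 r2_12

def pR6_2_13 : List Src := rowsSrc hS 6 r2_13

def pR6_2_14 : List Src := rowsSrc hS 6 r2_14

def pR6_2_15 : List Src := rowsSrc hS 6 r2_15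

def pR6_2_16 : List Src := rowsSrc hS 6 r2_16

def pR6_2_17 : List Src := rowsSrc hS 6 r2_17

def pR6_2_18 : List Src := rowsSrc hS 6 r2_18

def pR6_2_19 : List Src := rowsSrc hS 6 r2_19

def pR6_2_20 : List Src := rowsSrc hS 6 r2_20

def pR6_2_21 : List Src := rowsSrc hS 6 r2_21

def pR6_2_22 : List Src := rowsSrc hS 6 r2_22

def pR6_2_23 : List Src := rowsSrc hS 6 r2_23

def pR6_2_24 : List Src := rowsSrc hS 6 r2_24

def pR6_2_25 : List Src := rowsSrc hS 6 r2_25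

def pR6_2_26 : List Src := rowsSrc hS 6 r2_26

def pR6_2_27 : List Src := rowsSrc hS 6 r2_27

def pR6_2_28 : List Src := rowsSrc hS 6 r2_28

def m6_2 : List (List Src) := [pR6_2_0, pR6_2_1, pR6_2_2, pR6_2_3, pR6_2_4, pR6_2_5, pR6_2_6, pR6_2_7, pR6_2_8, pR6_2_9, pR6_2_10, pR6_2_11, pR6_2_12, pR6_2_13, pR6_2_14, pR6_2_15, pR6_2_16, pR6_2_17, pR6_2_18, pR6_2_19, pR6_2_20, pR6_2_21, pR6_2_22, pR6_2_23, pR6_2_24, pR6_2_25, pR6_2_26, pR6_2_27, pR6_2_28]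

theorem m6_2_eq : a2.map (rowsSrc hS 6) = m6_2 := rfl

end MP433Sys.FC
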