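import Pool.Agent.Work.MP_433a35_co.GB.Sys.AsmT
import Pool.Agent.Work.MP_433a35_co.GB.Sys.Hyb

/-! generated data: the target -/

set_option linter.style.longLine false

namespace MP433Sys.FC

def pT2 : List Src := tgtG hS 3 4 (nat_lit 2305843009213693952) (nat_lit 4611686018427387904) 2

def pT3 : List Src := tgtG hS 3 4 (nat_lit 2305843009213693952) (nat_lit 4611686018427387904) 3

def pT4 : List Src := tgtG hS 3 4 (nat_lit 2305843009213693952) (nat_lit 4611686018427387904) 4

def pT5 : List Src := tgtG hS 3 4 (nat_lit 2305843009213693952) (nat_lit 4611686018427387904) 5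

def pT6 : List Src := tgtG hS 3 4 (nat_lit 2305843009213693952) (nat_lit 4611686018427387904) 6

end MP433Sys.FC
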