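import Pool.Agent.Work.MP_433a35_co.GB.FC.Dat0
import Pool.Agent.Work.MP_433a35_co.GB.FC.Dat2
import Pool.Agent.Work.MP_433a35_co.GB.FC.Dat1
import Pool.Agent.Work.MP_433a35_co.GB.FC.Rows
import Pool.Agent.Work.MP_433a35_co.GB.FC.T
import Pool.Agent.Work.MP_433a35_co.GB.FC.K4

/-! generated data: the parts -/

set_option linter.style.longLine false

namespace MP433Sys.FC

def blks : List BlkT := [b0, b1, b2, b3, b4, b5, b6, b7, b8, b9, b10, b11, b12, b13, b14, b15, b16, b17, b18, b19, b20, b21, b22, b23, b24, b25, b26, b27, b28, b29, b30, b31, b32, b33, b34, b35]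

def rows : List RowD := a0.flatten ++ (a1.flatten ++ (a2.flatten))

theorem rs2_aux (a0 a1 a2 : List (List RowD)) :
    ([a0.flatten] ++ ([a1.flatten] ++ ([a2.flatten]))).flatten = a0.flatten ++ (a1.flatten ++ (a2.flatten)) := by
  simp only [List.flatten_append, List.flatten_cons, List.flatten_nil, List.append_nil]

def rs2 : List (List RowD) := [a0.flatten] ++ ([a1.flatten] ++ ([a2.flatten]))

theorem rs2_eq : rs2.flatten = rows := rs2_aux a0 a1 a2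

def bs2 : List (BlkT × List ℕ) := [(b0, []), (b1, []), (b2, []), (b3, []), (b4, []), (b5, []), (b6, []), (b7, []), (b8, []), (b9, []), (b10, []), (b11, []), (b12, []), (b13, []), (b14, []), (b15, []), (b16, []), (b17, []), (b18, []), (b19, []), (b20, []), (b21, []), (b22, []), (b23, []), (b24, []), (b25, []), (b26, []), (b27, []), (b28, []), (b29, []), (b30, []), (b31, []), (b32, []), (b33, []), (b34, []), (b35, [])]

def names2S : List (List Src) :=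
  [pT2] ++ (n2_0 ++ (n2_1 ++ (n2_2 ++ (n2_3 ++ (m2_0 ++ (m2_1 ++ (m2_2)))))))

theorem parts2_P : partsP hS 2 bs2 = n2_0 ++ (n2_1 ++ (n2_2 ++ (n2_3 ++ ([])))) := by
  rw [bs2, partsP_cons (b := b0) (by decide) n2_0_eq, partsP_cons (b := b1) (by decide) n2_1_eq, partsP_cons (b := b2) (by decide) n2_2_eq, partsP_cons (b := b3) (by decide) n2_3_eq, partsP_skip (b := b4) (by decide), partsP_skip (b := b5) (by decide), partsP_skip (b := b6) (by decide), partsP_skip (b := b7) (by decide), partsP_skip (b := b8) (by decide), partsP_skip (b := b9) (by decide), partsP_skip (b := b10) (by decide), partsP_skip (b := b11) (by decide), partsP_skip (b := b12) (by decide), partsP_skip (b := b13) (by decide), partsP_skip (b := b14) (by decide), partsP_skip (b := b15) (by decide), partsP_skip (b := b16) (by decide), partsP_skip (b := b17) (by decide), partsP_skip (b := b18) (by decide), partsP_skip (b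 := b19) (by decide), partsP_skip (b := b20) (by decide), partsP_skip (b := b21) (by decide), partsP_skip (b := b22) (by decide), partsP_skip (b := b23) (by decide), partsP_skip (b := b24) (by decide), partsP_skip (b := b25) (by decide), partsP_skip (b := b26) (by decide), partsP_skip (b := b27) (by decide), partsP_skip (b := b28) (by decide), partsP_skip (b := b29) (by decide), partsP_skip (b := b30) (by decide), partsP_skip (b := b31) (by decide), partsP_skip (b := b32) (by decide), partsP_skip (b := b33) (by decide), partsP_skip (b := b34) (by decide), partsP_skip (b := b35) (by decide), partsP_nil]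

theorem parts2_R : rs2.map (rowsSrc hS 2) = m2_0 ++ (m2_1 ++ (m2_2)) := by
  rw [rs2, List.map_append, List.map_append, m2_0_eq, m2_1_eq, m2_2_eq]

theorem parts2_aux (n2_0 n2_1 n2_2 n2_3 m2_0 m2_1 m2_2 : List (List Src)) (pT : List Src) :
    pT :: ((n2_0 ++ (n2_1 ++ (n2_2 ++ (n2_3 ++ ([]))))) ++ (m2_0 ++ (m2_1 ++ (m2_2)))) =
      [pT] ++ (n2_0 ++ (n2_1 ++ (n2_2 ++ (n2_3 ++ (m2_0 ++ (m2_1 ++ (m2_2))))))) := by
  simp only [List.append_assoc, List.cons_append, List.nil_append]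

theorem parts2 : partsT hS (tgtG hS 3 4 (nat_lit 2305843009213693952) (nat_lit 4611686018427387904)) 2 bs2 rs2 = names2S := by
  rw [partsT, parts2_P, parts2_R]
  exact parts2_aux n2_0 n2_1 n2_2 n2_3 m2_0 m2_1 m2_2 pT2

theorem rs3_aux (a0 a1 a2 : List (List RowD)) :
    ([a0.flatten] ++ ([a1.flatten] ++ ([a2.flatten]))).flatten = a0.flatten ++ (a1.flatten ++ (a2.flatten)) := by
  simp only [List.flatten_append, List.flatten_cons, List.flatten_nil, List.append_nil]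

def rs3 : List (List RowD) := [a0.flatten] ++ ([a1.flatten] ++ ([a2.flatten]))

theorem rs3_eq : rs3.flatten = rows := rs3_aux a0 a1 a2

def bs3 : List (BlkT × List ℕ) := [(b0, []), (b1, []), (b2, []), (b3, []), (b4, []), (b5, []), (b6, []), (b7, []), (b8, []), (b9, []), (b10, []), (b11, []), (b12, []), (b13, []), (b14, []), (b15, []), (b16, []), (b17, []), (b18, []), (b19, []), (b20, []), (b21, []), (b22, []), (b23, []), (b24, []), (b25, []), (b26, []), (b27, []), (b28, []), (b29, []), (b30, []), (b31, []), (b32, []), (b33, []), (b34, []), (b35, [])]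

def names3S : List (List Src) :=
  [pT3] ++ (n3_0 ++ (n3_1 ++ (n3_2 ++ (n3_3 ++ (n3_4 ++ (n3_5 ++ (n3_6 ++ (n3_7 ++ (n3_8 ++ (n3_9 ++ (n3_10 ++ (n3_11 ++ (m3_0 ++ (m3_1 ++ (m3_2)))))))))))))))

theorem parts3_P : partsP hS 3 bs3 = n3_0 ++ (n3_1 ++ (n3_2 ++ (n3_3 ++ (n3_4 ++ (n3_5 ++ (n3_6 ++ (n3_7 ++ (n3_8 ++ (n3_9 ++ (n3_10 ++ (n3_11 ++ ([])))))))))))) := by
  rw [bs3, partsP_cons (b := b0) (by decide) n3_0_eq, partsP_cons (b := b1) (by decide) n3_1_eq, partsP_cons (b := b2) (by decide) n3_2_eq, partsP_cons (b := b3) (by decide) n3_3_eq, partsP_cons (b := b4) (by decide) n3_4_eq, partsP_cons (b := b5) (by decide) n3_5_eq, partsP_cons (b := b6) (by decide) n3_6_eq, partsP_cons (b := b7) (by decide) n3_7_eq, partsP_cons (b := b8) (by decide) n3_8_eq, partsP_cons (b := b9) (by decide) n3_9_eq, partsP_cons (b := b10) (by decide) n3_10_eq, partsP_cons (b := b11) (by decide) n3_11_eq, partsP_skip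 (b := b12) (by decide), partsP_skip (b := b13) (by decide), partsP_skip (b := b14) (by decide), partsP_skip (b := b15) (by decide), partsP_skip (b := b16) (by decide), partsP_skip (b := b17) (by decide), partsP_skip (b := b18) (by decide), partsP_skip (b := b19) (by decide), partsP_skip (b := b20) (by decide), partsP_skip (b := b21) (by decide), partsP_skip (b := b22) (by decide), partsP_skip (b := b23) (by decide), partsP_skip (b := b24) (by decide), partsP_skip (b := b25) (by decide), partsP_skip (b := b26) (by decide), partsP_skip (b := b27) (by decide), partsP_skip (b := b28) (by decide), partsP_skip (b := b29) (by decide), partsP_skip (b := b30) (by decide), partsP_skip (b := b31) (by decide), partsP_skip (b := b32) (by decide), partsP_skip (b := b33) (by decide), partsP_skip (b := b34) (by decide), partsP_skip (b := b35) (by decide), partsP_nil]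

theorem parts3_R : rs3.map (rowsSrc hS 3) = m3_0 ++ (m3_1 ++ (m3_2)) := by
  rw [rs3, List.map_append, List.map_append, m3_0_eq, m3_1_eq, m3_2_eq]

theorem parts3_aux (n3_0 n3_1 n3_2 n3_3 n3_4 n3_5 n3_6 n3_7 n3_8 n3_9 n3_10 n3_11 m3_0 m3_1 m3_2 : List (List Src)) (pT : List Src) :
    pT :: ((n3_0 ++ (n3_1 ++ (n3_2 ++ (n3_3 ++ (n3_4 ++ (n3_5 ++ (n3_6 ++ (n3_7 ++ (n3_8 ++ (n3_9 ++ (n3_10 ++ (n3_11 ++ ([]))))))))))))) ++ (m3_0 ++ (m3_1 ++ (m3_2)))) =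
      [pT] ++ (n3_0 ++ (n3_1 ++ (n3_2 ++ (n3_3 ++ (n3_4 ++ (n3_5 ++ (n3_6 ++ (n3_7 ++ (n3_8 ++ (n3_9 ++ (n3_10 ++ (n3_11 ++ (m3_0 ++ (m3_1 ++ (m3_2))))))))))))))) := by
  simp only [List.append_assoc, List.cons_append, List.nil_append]

theorem parts3 : partsT hS (tgtG hS 3 4 (nat_lit 2305843009213693952) (nat_lit 4611686018427387904)) 3 bs3 rs3 = names3S := by
  rw [partsT, parts3_P, parts3_R]
  exact parts3_aux n3_0 n3_1 n3_2 n3_3 n3_4 n3_5 n3_6 n3_7 n3_8 n3_9 n3_10 n3_11 m3_0 m3_1 m3_2 pT3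

theorem rs4_aux (a0 a1 a2 : List (List RowD)) :
    (a0 ++ ([a1.flatten] ++ ([a2.flatten]))).flatten = a0.flatten ++ (a1.flatten ++ (a2.flatten)) := by
  simp only [List.flatten_append, List.flatten_cons, List.flatten_nil, List.append_nil]

def rs4 : List (List RowD) := a0 ++ ([a1.flatten] ++ ([a2.flatten]))

theorem rs4_eq : rs4.flatten = rows := rs4_aux a0 a1 a2

def bs4 : List (BlkT × List ℕ) := [(b0, []), (b1, []), (b2, []), (b3, []), (b4, []), (b5, []), (b6, []), (b7, []), (b8, []), (b9, []), (b10, []), (b11, []), (b12, []), (b13, []), (b14, []), (b15, []), (b16, []), (b17, []), (b18, []), (b19, []), (b20, []), (b21, []), (b22, []), (b23, []), (b24, []), (b25, []), (b26, []), (b27, []), (b28, []), (b29, []), (b30, []), (b31, []), (b32, []), (b33, []), (b34, []), (b35, [])]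

def names4S : List (List Src) :=
  [pT4] ++ (n4_0 ++ (n4_1 ++ (n4_2 ++ (n4_3 ++ (n4_4 ++ (n4_5 ++ (n4_6 ++ (n4_7 ++ (n4_8 ++ (n4_9 ++ (n4_10 ++ (n4_11 ++ (n4_12 ++ (n4_13 ++ (n4_14 ++ (n4_15 ++ (n4_16 ++ (n4_17 ++ (n4_18 ++ (n4_19 ++ (n4_20 ++ (n4_21 ++ (n4_22 ++ (n4_23 ++ (n4_24 ++ (n4_25 ++ (n4_26 ++ (n4_27 ++ (n4_28 ++ (n4_29 ++ (n4_30 ++ (n4_31 ++ (n4_32 ++ (n4_33 ++ (n4_34 ++ (n4_35 ++ (m4_0 ++ (m4_1 ++ (m4_2)))))))))))))))))))))))))))))))))))))))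

theorem parts4_P : partsP hS 4 bs4 = n4_0 ++ (n4_1 ++ (n4_2 ++ (n4_3 ++ (n4_4 ++ (n4_5 ++ (n4_6 ++ (n4_7 ++ (n4_8 ++ (n4_9 ++ (n4_10 ++ (n4_11 ++ (n4_12 ++ (n4_13 ++ (n4_14 ++ (n4_15 ++ (n4_16 ++ (n4_17 ++ (n4_18 ++ (n4_19 ++ (n4_20 ++ (n4_21 ++ (n4_22 ++ (n4_23 ++ (n4_24 ++ (n4_25 ++ (n4_26 ++ (n4_27 ++ (n4_28 ++ (n4_29 ++ (n4_30 ++ (n4_31 ++ (n4_32 ++ (n4_33 ++ (n4_34 ++ (n4_35 ++ ([])))))))))))))))))))))))))))))))))))) := by
  rw [bs4, partsP_cons (b := b0) (by decide) n4_0_eq, partsP_cons (b := b1) (by decide) n4_1_eq, partsP_cons (b := b2) (by decide) n4_2_eq, partsP_cons (b := b3) (by decide) n4_3_eq, partsP_cons (b := b4) (by decide) n4_4_eq, partsP_cons (b := b5) (by decide) n4_5_eq, partsP_cons (b := b6) (by decide) n4_6_eq, partsP_cons (b := b7) (by decide) n4_7_eq, partsP_cons (b := b8) (by decide) n4_8_eq, partsP_cons (b := b9) (by decide) n4_9_eq, partsP_cons (b := b10)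 (by decide) n4_10_eq, partsP_cons (b := b11) (by decide) n4_11_eq, partsP_cons (b := b12) (by decide) n4_12_eq, partsP_cons (b := b13) (by decide) n4_13_eq, partsP_cons (b := b14) (by decide) n4_14_eq, partsP_cons (b := b15) (by decide) n4_15_eq, partsP_cons (b := b16) (by decide) n4_16_eq, partsP_cons (b := b17) (by decide) n4_17_eq, partsP_cons (b := b18) (by decide) n4_18_eq, partsP_cons (b := b19) (by decide) n4_19_eq, partsP_cons (b := b20) (by decide) n4_20_eq, partsP_cons (b := b21) (by decide) n4_21_eq, partsP_cons (b := b22) (by decide) n4_22_eq, partsP_cons (b := b23) (by decide) n4_23_eq, partsP_cons (b := b24) (by decide) n4_24_eq, partsP_cons (b := b25) (by decide) n4_25_eq, partsP_cons (b := b26) (by decide) n4_26_eq, partsP_cons (b := b27) (by decide) n4_27_eq, partsP_cons (b := b28) (by decide) n4_28_eq, partsP_cons (b := b29) (by decide) n4_29_eq, partsP_cons (b := b30)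 (by decide) n4_30_eq, partsP_cons (b := b31) (by decide) n4_31_eq, partsP_cons (b := b32) (by decide) n4_32_eq, partsP_cons (b := b33) (by decide) n4_33_eq, partsP_cons (b := b34) (by decide) n4_34_eq, partsP_cons (b := b35) (by decide) n4_35_eq, partsP_nil]

theorem parts4_R : rs4.map (rowsSrc hS 4) = m4_0 ++ (m4_1 ++ (m4_2)) := by
  rw [rs4, List.map_append, List.map_append, m4_0_eq, m4_1_eq, m4_2_eq]

theorem parts4_aux (n4_0 n4_1 n4_2 n4_3 n4_4 n4_5 n4_6 n4_7 n4_8 n4_9 n4_10 n4_11 n4_12 n4_13 n4_14 n4_15 n4_16 n4_17 n4_18 n4_19 n4_20 n4_21 n4_22 n4_23 n4_24 n4_25 n4_26 n4_27 n4_28 n4_29 n4_30 n4_31 n4_32 n4_33 n4_34 n4_35 m4_0 m4_1 m4_2 : List (List Src)) (pT : List Src) :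
    pT :: ((n4_0 ++ (n4_1 ++ (n4_2 ++ (n4_3 ++ (n4_4 ++ (n4_5 ++ (n4_6 ++ (n4_7 ++ (n4_8 ++ (n4_9 ++ (n4_10 ++ (n4_11 ++ (n4_12 ++ (n4_13 ++ (n4_14 ++ (n4_15 ++ (n4_16 ++ (n4_17 ++ (n4_18 ++ (n4_19 ++ (n4_20 ++ (n4_21 ++ (n4_22 ++ (n4_23 ++ (n4_24 ++ (n4_25 ++ (n4_26 ++ (n4_27 ++ (n4_28 ++ (n4_29 ++ (n4_30 ++ (n4_31 ++ (n4_32 ++ (n4_33 ++ (n4_34 ++ (n4_35 ++ ([]))))))))))))))))))))))))))))))))))))) ++ (m4_0 ++ (m4_1 ++ (m4_2)))) =
      [pT] ++ (n4_0 ++ (n4_1 ++ (n4_2 ++ (n4_3 ++ (n4_4 ++ (n4_5 ++ (n4_6 ++ (n4_7 ++ (n4_8 ++ (n4_9 ++ (n4_10 ++ (n4_11 ++ (n4_12 ++ (n4_13 ++ (n4_14 ++ (n4_15 ++ (n4_16 ++ (n4_17 ++ (n4_18 ++ (n4_19 ++ (n4_20 ++ (n4_21 ++ (n4_22 ++ (n4_23 ++ (n4_24 ++ (n4_25 ++ (n4_26 ++ (n4_27 ++ (n4_28 ++ (n4_29 ++ (n4_30 ++ (n4_31 ++ (n4_32 ++ (n4_33 ++ (n4_34 ++ (n4_35 ++ (m4_0 ++ (m4_1 ++ (m4_2))))))))))))))))))))))))))))))))))))))) := by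
  simp only [List.append_assoc, List.cons_append, List.nil_append]

theorem parts4 : partsT hS (tgtG hS 3 4 (nat_lit 2305843009213693952) (nat_lit 4611686018427387904)) 4 bs4 rs4 = names4S := by
  rw [partsT, parts4_P, parts4_R]
  exact parts4_aux n4_0 n4_1 n4_2 n4_3 n4_4 n4_5 n4_6 n4_7 n4_8 n4_9 n4_10 n4_11 n4_12 n4_13 n4_14 n4_15 n4_16 n4_17 n4_18 n4_19 n4_20 n4_21 n4_22 n4_23 n4_24 n4_25 n4_26 n4_27 n4_28 n4_29 n4_30 n4_31 n4_32 n4_33 n4_34 n4_35 m4_0 m4_1 m4_2 pT4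

theorem rs5_aux (a0 a1 a2 : List (List RowD)) :
    ([a0.flatten] ++ (a1 ++ ([a2.flatten]))).flatten = a0.flatten ++ (a1.flatten ++ (a2.flatten)) := by
  simp only [List.flatten_append, List.flatten_cons, List.flatten_nil, List.append_nil]

def rs5 : List (List RowD) := [a0.flatten] ++ (a1 ++ ([a2.flatten]))

theorem rs5_eq : rs5.flatten = rows := rs5_aux a0 a1 a2

def bs5 : List (BlkT × List ℕ) := [(b0, [5]), (b1, []), (b2, []), (b3, [6, 5]), (b4, []), (b5, []), (b6, []), (b7, []), (b8, [31]), (b9, []), (b10, []), (b11, []), (b12, []), (b13, []), (b14, []), (b15, []), (b16, []), (b17, []), (b18, []), (b19, []), (b20, []), (b21, []), (b22, []), (b23, []), (b24, []), (b25, []), (b26, []), (b27, []), (b28, []), (b29, []), (b30, []), (b31, []), (b32, []), (b33, []), (b34, []), (b35, [])]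

def names5S : List (List Src) :=
  [pT5] ++ (n5_0 ++ (n5_1 ++ (n5_2 ++ (n5_3 ++ (n5_4 ++ (n5_5 ++ (n5_6 ++ (n5_7 ++ (n5_8 ++ (n5_9 ++ (n5_10 ++ (n5_11 ++ (n5_12 ++ (n5_13 ++ (n5_14 ++ (n5_15 ++ (n5_16 ++ (n5_17 ++ (n5_18 ++ (n5_19 ++ (n5_20 ++ (n5_21 ++ (n5_22 ++ (n5_23 ++ (n5_24 ++ (n5_25 ++ (n5_26 ++ (n5_27 ++ (n5_28 ++ (n5_29 ++ (n5_30 ++ (n5_31 ++ (n5_32 ++ (n5_33 ++ (n5_34 ++ (n5_35 ++ (m5_0 ++ (m5_1 ++ (m5_2)))))))))))))))))))))))))))))))))))))))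

theorem parts5_P : partsP hS 5 bs5 = n5_0 ++ (n5_1 ++ (n5_2 ++ (n5_3 ++ (n5_4 ++ (n5_5 ++ (n5_6 ++ (n5_7 ++ (n5_8 ++ (n5_9 ++ (n5_10 ++ (n5_11 ++ (n5_12 ++ (n5_13 ++ (n5_14 ++ (n5_15 ++ (n5_16 ++ (n5_17 ++ (n5_18 ++ (n5_19 ++ (n5_20 ++ (n5_21 ++ (n5_22 ++ (n5_23 ++ (n5_24 ++ (n5_25 ++ (n5_26 ++ (n5_27 ++ (n5_28 ++ (n5_29 ++ (n5_30 ++ (n5_31 ++ (n5_32 ++ (n5_33 ++ (n5_34 ++ (n5_35 ++ ([])))))))))))))))))))))))))))))))))))) := by
  rw [bs5, partsP_cons (b := b0) (by decide) n5_0_eq, partsP_cons (b := b1) (by decide) n5_1_eq, partsP_cons (b := b2) (by decide) n5_2_eq, partsP_cons (b := b3) (by decide) n5_3_eq, partsP_cons (b := b4) (by decide) n5_4_eq, partsP_cons (b := b5) (by decide) n5_5_eq, partsP_cons (b := b6) (by decide) n5_6_eq, partsP_cons (b := b7) (by decide) n5_7_eq, partsP_cons (b := b8) (by decide) n5_8_eq, partsP_cons (b := b9) (by decide) n5_9_eq, partsP_cons (b := b10)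 (by decide) n5_10_eq, partsP_cons (b := b11) (by decide) n5_11_eq, partsP_cons (b := b12) (by decide) n5_12_eq, partsP_cons (b := b13) (by decide) n5_13_eq, partsP_cons (b := b14) (by decide) n5_14_eq, partsP_cons (b := b15) (by decide) n5_15_eq, partsP_cons (b := b16) (by decide) n5_16_eq, partsP_cons (b := b17) (by decide) n5_17_eq, partsP_cons (b := b18) (by decide) n5_18_eq, partsP_cons (b := b19) (by decide) n5_19_eq, partsP_cons (b := b20) (by decide) n5_20_eq, partsP_cons (b := b21) (by decide) n5_21_eq, partsP_cons (b := b22) (by decide) n5_22_eq, partsP_cons (b := b23) (by decide) n5_23_eq, partsP_cons (b := b24) (by decide) n5_24_eq, partsP_cons (b := b25) (by decide) n5_25_eq, partsP_cons (b := b26) (by decide) n5_26_eq, partsP_cons (b := b27) (by decide) n5_27_eq, partsP_cons (b := b28) (by decide) n5_28_eq, partsP_cons (b := b29) (by decide) n5_29_eq, partsP_cons (b := b30)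 (by decide) n5_30_eq, partsP_cons (b := b31) (by decide) n5_31_eq, partsP_cons (b := b32) (by decide) n5_32_eq, partsP_cons (b := b33) (by decide) n5_33_eq, partsP_cons (b := b34) (by decide) n5_34_eq, partsP_cons (b := b35) (by decide) n5_35_eq, partsP_nil]

theorem parts5_R : rs5.map (rowsSrc hS 5) = m5_0 ++ (m5_1 ++ (m5_2)) := by
  rw [rs5, List.map_append, List.map_append, m5_0_eq, m5_1_eq, m5_2_eq]

theorem parts5_aux (n5_0 n5_1 n5_2 n5_3 n5_4 n5_5 n5_6 n5_7 n5_8 n5_9 n5_10 n5_11 n5_12 n5_13 n5_14 n5_15 n5_16 n5_17 n5_18 n5_19 n5_20 n5_21 n5_22 n5_23 n5_24 n5_25 n5_26 n5_27 n5_28 n5_29 n5_30 n5_31 n5_32 n5_33 n5_34 n5_35 m5_0 m5_1 m5_2 : List (List Src)) (pT : List Src) :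
    pT :: ((n5_0 ++ (n5_1 ++ (n5_2 ++ (n5_3 ++ (n5_4 ++ (n5_5 ++ (n5_6 ++ (n5_7 ++ (n5_8 ++ (n5_9 ++ (n5_10 ++ (n5_11 ++ (n5_12 ++ (n5_13 ++ (n5_14 ++ (n5_15 ++ (n5_16 ++ (n5_17 ++ (n5_18 ++ (n5_19 ++ (n5_20 ++ (n5_21 ++ (n5_22 ++ (n5_23 ++ (n5_24 ++ (n5_25 ++ (n5_26 ++ (n5_27 ++ (n5_28 ++ (n5_29 ++ (n5_30 ++ (n5_31 ++ (n5_32 ++ (n5_33 ++ (n5_34 ++ (n5_35 ++ ([]))))))))))))))))))))))))))))))))))))) ++ (m5_0 ++ (m5_1 ++ (m5_2)))) =
      [pT] ++ (n5_0 ++ (n5_1 ++ (n5_2 ++ (n5_3 ++ (n5_4 ++ (n5_5 ++ (n5_6 ++ (n5_7 ++ (n5_8 ++ (n5_9 ++ (n5_10 ++ (n5_11 ++ (n5_12 ++ (n5_13 ++ (n5_14 ++ (n5_15 ++ (n5_16 ++ (n5_17 ++ (n5_18 ++ (n5_19 ++ (n5_20 ++ (n5_21 ++ (n5_22 ++ (n5_23 ++ (n5_24 ++ (n5_25 ++ (n5_26 ++ (n5_27 ++ (n5_28 ++ (n5_29 ++ (n5_30 ++ (n5_31 ++ (n5_32 ++ (n5_33 ++ (n5_34 ++ (n5_35 ++ (m5_0 ++ (m5_1 ++ (m5_2))))))))))))))))))))))))))))))))))))))) := by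
  simp only [List.append_assoc, List.cons_append, List.nil_append]

theorem parts5 : partsT hS (tgtG hS 3 4 (nat_lit 2305843009213693952) (nat_lit 4611686018427387904)) 5 bs5 rs5 = names5S := by
  rw [partsT, parts5_P, parts5_R]
  exact parts5_aux n5_0 n5_1 n5_2 n5_3 n5_4 n5_5 n5_6 n5_7 n5_8 n5_9 n5_10 n5_11 n5_12 n5_13 n5_14 n5_15 n5_16 n5_17 n5_18 n5_19 n5_20 n5_21 n5_22 n5_23 n5_24 n5_25 n5_26 n5_27 n5_28 n5_29 n5_30 n5_31 n5_32 n5_33 n5_34 n5_35 m5_0 m5_1 m5_2 pT5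

theorem rs6_aux (a0 a1 a2 : List (List RowD)) :
    ([a0.flatten] ++ ([a1.flatten] ++ (a2))).flatten = a0.flatten ++ (a1.flatten ++ (a2.flatten)) := by
  simp only [List.flatten_append, List.flatten_cons, List.flatten_nil, List.append_nil]

def rs6 : List (List RowD) := [a0.flatten] ++ ([a1.flatten] ++ (a2))

theorem rs6_eq : rs6.flatten = rows := rs6_aux a0 a1 a2

def bs6 : List (BlkT × List ℕ) := [(b0, []), (b1, [8]), (b2, []), (b3, [15, 1, 1, 1, 1, 1, 1, 1, 1, 1, 1, 1, 1, 1, 1, 1, 1, 1, 1, 1, 1, 1, 1, 1, 1, 1, 1, 1, 1, 1, 1, 1, 1, 1, 1, 1, 1, 1, 1, 1, 2, 2, 3, 5]), (b4, []), (b5, []), (b6, []), (b7, []), (b8, []), (b9, []), (b10, []), (b11, []), (b12, []), (b13, []), (b14, []), (b15, []), (b16, [15, 18]), (b17, []), (b18, []), (b19, []), (b20, [14, 16, 28]), (b21, [12, 12, 15, 25]), (b22, []), (b23, []), (b24, [21]), (b25, [17, 25]), (b26, [14, 13, 17]), (b27, []), (b28, [31]), (b29,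 [16, 17]), (b30, []), (b31, [21]), (b32, []), (b33, []), (b34, [16, 17]), (b35, [14, 14, 20])]

def names6S : List (List Src) :=
  [pT6] ++ (n6_0 ++ (n6_1 ++ (n6_2 ++ (n6_3 ++ (n6_4 ++ (n6_5 ++ (n6_6 ++ (n6_7 ++ (n6_8 ++ (n6_9 ++ (n6_10 ++ (n6_11 ++ (n6_12 ++ (n6_13 ++ (n6_14 ++ (n6_15 ++ (n6_16 ++ (n6_17 ++ (n6_18 ++ (n6_19 ++ (n6_20 ++ (n6_21 ++ (n6_22 ++ (n6_23 ++ (n6_24 ++ (n6_25 ++ (n6_26 ++ (n6_27 ++ (n6_28 ++ (n6_29 ++ (n6_30 ++ (n6_31 ++ (n6_32 ++ (n6_33 ++ (n6_34 ++ (n6_35 ++ (m6_0 ++ (m6_1 ++ (m6_2)))))))))))))))))))))))))))))))))))))))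

theorem parts6_P : partsP hS 6 bs6 = n6_0 ++ (n6_1 ++ (n6_2 ++ (n6_3 ++ (n6_4 ++ (n6_5 ++ (n6_6 ++ (n6_7 ++ (n6_8 ++ (n6_9 ++ (n6_10 ++ (n6_11 ++ (n6_12 ++ (n6_13 ++ (n6_14 ++ (n6_15 ++ (n6_16 ++ (n6_17 ++ (n6_18 ++ (n6_19 ++ (n6_20 ++ (n6_21 ++ (n6_22 ++ (n6_23 ++ (n6_24 ++ (n6_25 ++ (n6_26 ++ (n6_27 ++ (n6_28 ++ (n6_29 ++ (n6_30 ++ (n6_31 ++ (n6_32 ++ (n6_33 ++ (n6_34 ++ (n6_35 ++ ([])))))))))))))))))))))))))))))))))))) := by
  rw [bs6, partsP_cons (b := b0) (by decide) n6_0_eq, partsP_cons (b := b1) (by decide) n6_1_eq, partsP_cons (b := b2) (by decide) n6_2_eq, partsP_cons (b := b3) (by decide) n6_3_eq, partsP_cons (b := b4) (by decide) n6_4_eq, partsP_cons (b := b5) (by decide) n6_5_eq, partsP_cons (b := b6) (by decide) n6_6_eq, partsP_cons (b := b7) (by decide) n6_7_eq, partsP_cons (b := b8) (by decide) n6_8_eq, partsP_cons (b := b9) (by decide) n6_9_eq, partsP_cons (b := b10)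 (by decide) n6_10_eq, partsP_cons (b := b11) (by decide) n6_11_eq, partsP_cons (b := b12) (by decide) n6_12_eq, partsP_cons (b := b13) (by decide) n6_13_eq, partsP_cons (b := b14) (by decide) n6_14_eq, partsP_cons (b := b15) (by decide) n6_15_eq, partsP_cons (b := b16) (by decide) n6_16_eq, partsP_cons (b := b17) (by decide) n6_17_eq, partsP_cons (b := b18) (by decide) n6_18_eq, partsP_cons (b := b19) (by decide) n6_19_eq, partsP_cons (b := b20) (by decide) n6_20_eq, partsP_cons (b := b21) (by decide) n6_21_eq, partsP_cons (b := b22) (by decide) n6_22_eq, partsP_cons (b := b23) (by decide) n6_23_eq, partsP_cons (b := b24) (by decide) n6_24_eq, partsP_cons (b := b25) (by decide) n6_25_eq, partsP_cons (b := b26) (by decide) n6_26_eq, partsP_cons (b := b27) (by decide) n6_27_eq, partsP_cons (b := b28) (by decide) n6_28_eq, partsP_cons (b := b29) (by decide) n6_29_eq, partsP_cons (b := b30)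 (by decide) n6_30_eq, partsP_cons (b := b31) (by decide) n6_31_eq, partsP_cons (b := b32) (by decide) n6_32_eq, partsP_cons (b := b33) (by decide) n6_33_eq, partsP_cons (b := b34) (by decide) n6_34_eq, partsP_cons (b := b35) (by decide) n6_35_eq, partsP_nil]

theorem parts6_R : rs6.map (rowsSrc hS 6) = m6_0 ++ (m6_1 ++ (m6_2)) := by
  rw [rs6, List.map_append, List.map_append, m6_0_eq, m6_1_eq, m6_2_eq]

theorem parts6_aux (n6_0 n6_1 n6_2 n6_3 n6_4 n6_5 n6_6 n6_7 n6_8 n6_9 n6_10 n6_11 n6_12 n6_13 n6_14 n6_15 n6_16 n6_17 n6_18 n6_19 n6_20 n6_21 n6_22 n6_23 n6_24 n6_25 n6_26 n6_27 n6_28 n6_29 n6_30 n6_31 n6_32 n6_33 n6_34 n6_35 m6_0 m6_1 m6_2 : List (List Src)) (pT : List Src) :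
    pT :: ((n6_0 ++ (n6_1 ++ (n6_2 ++ (n6_3 ++ (n6_4 ++ (n6_5 ++ (n6_6 ++ (n6_7 ++ (n6_8 ++ (n6_9 ++ (n6_10 ++ (n6_11 ++ (n6_12 ++ (n6_13 ++ (n6_14 ++ (n6_15 ++ (n6_16 ++ (n6_17 ++ (n6_18 ++ (n6_19 ++ (n6_20 ++ (n6_21 ++ (n6_22 ++ (n6_23 ++ (n6_24 ++ (n6_25 ++ (n6_26 ++ (n6_27 ++ (n6_28 ++ (n6_29 ++ (n6_30 ++ (n6_31 ++ (n6_32 ++ (n6_33 ++ (n6_34 ++ (n6_35 ++ ([]))))))))))))))))))))))))))))))))))))) ++ (m6_0 ++ (m6_1 ++ (m6_2)))) =
      [pT] ++ (n6_0 ++ (n6_1 ++ (n6_2 ++ (n6_3 ++ (n6_4 ++ (n6_5 ++ (n6_6 ++ (n6_7 ++ (n6_8 ++ (n6_9 ++ (n6_10 ++ (n6_11 ++ (n6_12 ++ (n6_13 ++ (n6_14 ++ (n6_15 ++ (n6_16 ++ (n6_17 ++ (n6_18 ++ (n6_19 ++ (n6_20 ++ (n6_21 ++ (n6_22 ++ (n6_23 ++ (n6_24 ++ (n6_25 ++ (n6_26 ++ (n6_27 ++ (n6_28 ++ (n6_29 ++ (n6_30 ++ (n6_31 ++ (n6_32 ++ (n6_33 ++ (n6_34 ++ (n6_35 ++ (m6_0 ++ (m6_1 ++ (m6_2))))))))))))))))))))))))))))))))))))))) := by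
  simp only [List.append_assoc, List.cons_append, List.nil_append]

theorem parts6 : partsT hS (tgtG hS 3 4 (nat_lit 2305843009213693952) (nat_lit 4611686018427387904)) 6 bs6 rs6 = names6S := by
  rw [partsT, parts6_P, parts6_R]
  exact parts6_aux n6_0 n6_1 n6_2 n6_3 n6_4 n6_5 n6_6 n6_7 n6_8 n6_9 n6_10 n6_11 n6_12 n6_13 n6_14 n6_15 n6_16 n6_17 n6_18 n6_19 n6_20 n6_21 n6_22 n6_23 n6_24 n6_25 n6_26 n6_27 n6_28 n6_29 n6_30 n6_31 n6_32 n6_33 n6_34 n6_35 m6_0 m6_1 m6_2 pT6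

end MP433Sys.FC
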